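import Pool.Agent.MP_24fbf1_an.Mg.Bi_Repl
import Pool.Agent.MP_24fbf1_an.Bi.Oper

/-!
The inverse of a bi-Lipschitz operator Lipschitz function.
-/

set_option autoImplicit false

open Finset Filter Topology

namespace Pool.Agent.MP_24fbf1_an.Bi

universe u

variable {f g : ℝ → ℝ} {a b : ℝ}

lemma exists_sign (hab : a ≤ b) (hf : ContinuousOn f (Set.Icc a b))
    (hi : Set.InjOn f (Set.Icc a b)) : ∃ σ : ℝ, |σ| = 1 ∧
      ∀ x ∈ Set.Icc a b, ∀ y ∈ Set.Icc a b, x < y → σ * (f y - f x) = |f y - f x| := by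
  rcases hf.strictMonoOn_of_injOn_Icc' hab hi with h | h
  · exact ⟨1, abs_one, fun x hx y hy hxy => by
      rw [one_mul, abs_of_pos (sub_pos.2 (h hx hy hxy))]⟩
  · exact ⟨-1, by simp, fun x hx y hy hxy => by
      rw [neg_one_mul, abs_of_neg (sub_neg.2 (h hx hy hxy))]⟩

lemma maps_uIcc (hab : a ≤ b) (hf : ContinuousOn f (Set.Icc a b))
    (hi : Set.InjOn f (Set.Icc a b)) {x : ℝ} (hx : x ∈ Set.Icc a b) :
    f x ∈ Set.uIcc (f a) (f b) := by
  have ha : a ∈ Set.Icc a b := ⟨le_rfl, hab⟩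
  have hb : b ∈ Set.Icc a b := ⟨hab, le_rfl⟩
  rcases hf.strictMonoOn_of_injOn_Icc' hab hi with h | h
  · exact Set.mem_uIcc.2 (Or.inl ⟨h.monotoneOn ha hx hx.1, h.monotoneOn hx hb hx.2⟩)
  · exact Set.mem_uIcc.2 (Or.inr ⟨h.antitoneOn hx hb hx.2, h.antitoneOn ha hx hx.1⟩)

lemma surj_uIcc (hab : a ≤ b) (hf : ContinuousOn f (Set.Icc a b)) {y : ℝ}
    (hy : y ∈ Set.uIcc (f a) (f b)) : ∃ x ∈ Set.Icc a b, f x = y := by
  rw [← Set.uIcc_of_le hab] at hf ⊢
  exact intermediate_value_uIcc hf hy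

lemma inj_of_lower {m : ℝ} (hm : 0 < m)
    (h : ∀ x ∈ Set.Icc a b, ∀ y ∈ Set.Icc a b, m * |x - y| ≤ |f x - f y|) :
    Set.InjOn f (Set.Icc a b) := by
  intro x hx y hy e
  have := h x hx y hy
  rw [e, sub_self, abs_zero] at this
  have h2 : |x - y| ≤ 0 := by nlinarith [abs_nonneg (x - y)]
  exact sub_eq_zero.1 (abs_nonpos_iff.1 h2)

theorem mulDiff_inverse (hab : a ≤ b) (hf : ContinuousOn f (Set.Icc a b)) {C m : ℝ} (hC : 0 ≤ C)
    (h : ∀ (γ : Type u) [Fintype γ], Est (EuclideanSpace ℂ γ) f (Set.Icc a b) C) (hm : 0 < m)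
    (hl : ∀ x ∈ Set.Icc a b, ∀ y ∈ Set.Icc a b, m * |x - y| ≤ |f x - f y|)
    (hg : ∀ x ∈ Set.Icc a b, g (f x) = x) :
    ∃ M, 0 ≤ M ∧ MulDiff g (Set.uIcc (f a) (f b)) M := by
  classical
  obtain ⟨σ, hσ, hs⟩ := exists_sign hab hf (inj_of_lower hm hl)
  have hσm : |σ / m| ≤ 1 / m := by rw [abs_div, hσ, abs_of_pos hm]
  let K : ℝ → ℝ → ℝ := fun x y => σ / m * ((f x - f y) / (x - y)) + if x = y then 1 else 0
  have hsymm : ∀ x y, K x y = K y x := fun x y => by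
    simp only [K, eq_comm (a := x)]
    rw [← neg_sub (f y), ← neg_sub y, neg_div_neg_eq]
  have hmul : ∀ {α β : Type} (s : Finset α) (t : Finset β) (u : α → ℝ) (v : β → ℝ),
      (∀ i, u i ∈ Set.Icc a b) → (∀ j, v j ∈ Set.Icc a b) →
      Mul s t (fun i j => K (u i) (v j)) (1 / m * (4 * C) + 1) := fun s t u v hu hv =>
    ((mul_of_est hab hf hC h s t u v hu hv).smul hσm (by positivity)).add (mul_pinch u v)
  have hlt : ∀ x ∈ Set.Icc a b, ∀ y ∈ Set.Icc a b, y < x → 1 ≤ K x y := by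
    intro x hx y hy hxy
    have h1 := hl x hx y hy
    rw [← hs y hy x hx hxy, abs_of_pos (sub_pos.2 hxy)] at h1
    simp only [K, if_neg hxy.ne', add_zero]
    rw [div_mul_div_comm, one_le_div (mul_pos hm (sub_pos.2 hxy))]
    exact h1
  have hK : RKer (1 / m * (4 * C) + 1) a b (fun x => σ / m * f x) K := by
    refine ⟨fun x hx y hy => ?_, fun x hx y hy => ?_, hsymm, fun x y => ?_, fun x => by simp [K],
      hmul⟩
    · rcases lt_trichotomy x y with h1 | h1 | h1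
      · rw [hsymm]
        exact hlt y hy x hx h1
      · simp [K, h1]
      · exact hlt x hx y hy h1
    · exact (le_abs_self _).trans
        (hmul {()} {()} (fun _ => x) (fun _ => y) (fun _ => hx) fun _ => hy).pointwise
    · by_cases h1 : x = y
      · simp [h1]
      · have := sub_ne_zero.2 h1
        simp only [K, if_neg h1, add_zero]
        field_simp
        ring
  refine ⟨1 / m * (96000000000000 * (1 / m * (4 * C) + 1) ^ 4), by positivity,
    fun n n' p q hp hq => ?_⟩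
  choose u hu hu' using fun i => surj_uIcc hab hf (hp i)
  choose v hv hv' using fun j => surj_uIcc hab hf (hq j)
  refine ⟨_, (mul_inv hK hab u v hu hv).smul hσm (by positivity), fun i j => ?_⟩
  have h1 := hK.diff (u i) (v j)
  have h2 := hK.one_le _ (hu i) _ (hv j)
  rw [← hu', ← hv', hg _ (hu i), hg _ (hv j)]
  generalize K (u i) (v j) = k at h1 h2
  generalize σ / m = τ at h1
  have h3 : k ≠ 0 := by linarith
  field_simp
  linarith

lemma lower_of_deriv {f' : ℝ → ℝ} {m : ℝ} (hf : ContinuousOn f (Set.Icc a b))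
    (hd : ∀ x ∈ Set.Icc a b, HasDerivWithinAt f (f' x) (Set.Icc a b) x)
    (hm : ∀ x ∈ Set.Icc a b, m ≤ |f' x|) :
    ∀ x ∈ Set.Icc a b, ∀ y ∈ Set.Icc a b, m * |x - y| ≤ |f x - f y| := by
  have key : ∀ x ∈ Set.Icc a b, ∀ y ∈ Set.Icc a b, y < x → m * |x - y| ≤ |f x - f y| := by
    intro x hx y hy hxy
    obtain ⟨c, hc, e⟩ := exists_hasDerivAt_eq_slope f f' hxy
      (hf.mono (Set.Icc_subset_Icc hy.1 hx.2)) fun z hz =>
        (hd z ⟨hy.1.trans hz.1.le, hz.2.le.trans hx.2⟩).hasDerivAt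
          (Icc_mem_nhds (hy.1.trans_lt hz.1) (hz.2.trans_le hx.2))
    have h1 := hm c ⟨hy.1.trans hc.1.le, hc.2.le.trans hx.2⟩
    rwa [e, abs_div, le_div_iff₀ (abs_pos.2 (sub_pos.2 hxy).ne')] at h1
  intro x hx y hy
  rcases lt_trichotomy x y with h | h | h
  · rw [abs_sub_comm, abs_sub_comm (f x)]
    exact key y hy x hx h
  · simp [h]
  · exact key x hx y hy h

lemma deriv_of_upper {C d x : ℝ} (hab : a < b) (hx : x ∈ Set.Icc a b)
    (hd : HasDerivWithinAt f d (Set.Icc a b) x)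
    (h : ∀ y ∈ Set.Icc a b, |y - x| ≤ C * |f y - f x|) : 1 ≤ C * |d| := by
  have h1 := (hasDerivWithinAt_iff_tendsto_slope.1 hd).abs.const_mul C
  have : (𝓝[Set.Icc a b \ {x}] x).NeBot := accPt_principal_iff_nhdsWithin.1
    (isPreconnected_Icc.preperfect_of_nontrivial
      ⟨a, Set.left_mem_Icc.2 hab.le, b, Set.right_mem_Icc.2 hab.le, hab.ne⟩ x hx)
  refine ge_of_tendsto h1 ?_
  filter_upwards [self_mem_nhdsWithin] with y hy
  have h6 : 0 < |y - x| := abs_pos.2 (sub_ne_zero.2 hy.2)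
  rw [slope_def_field, abs_div, ← mul_div_assoc, le_div_iff₀ h6, one_mul]
  exact h y hy.1

lemma lip_of_est {J : Set ℝ} {C : ℝ} (h : Est (EuclideanSpace ℂ PUnit.{u + 1}) g J C) {x y : ℝ}
    (hx : x ∈ J) (hy : y ∈ J) : |g x - g y| ≤ C * |x - y| := by
  have hsp : ∀ r : ℝ, spectrum ℝ (algebraMap ℝ (EuclideanSpace ℂ PUnit.{u + 1} →L[ℂ]
      EuclideanSpace ℂ PUnit.{u + 1}) r) = {r} := fun r => spectrum.scalar_eq r
  have hsa : ∀ r : ℝ, IsSelfAdjoint (algebraMap ℝ (EuclideanSpace ℂ PUnit.{u + 1} →L[ℂ]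
      EuclideanSpace ℂ PUnit.{u + 1}) r) := fun r => IsSelfAdjoint.algebraMap _ (IsSelfAdjoint.all r)
  have h1 := h (algebraMap ℝ _ x) (algebraMap ℝ _ y) (hsa x) (hsa y)
    (by rw [hsp]; exact Set.singleton_subset_iff.2 hx)
    (by rw [hsp]; exact Set.singleton_subset_iff.2 hy)
  rwa [cfc_algebraMap, cfc_algebraMap, ← map_sub, ← map_sub, norm_algebraMap',
    norm_algebraMap'] at h1

end Pool.Agent.MP_24fbf1_an.Bi
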