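import Pool.Agent.MP_24fbf1_an.Bi.Mul

-- part MP_24fbf1_an.Bi.Block
section

/-!
The Taylor remainder of `1 / k` on a block with an anchor, and Abel summation.
-/

set_option autoImplicit false

open Finset

namespace Pool.Agent.MP_24fbf1_an.Bi

variable {α β : Type*} {s : Finset α} {t : Finset β}

/-- Second order Taylor polynomial of `1 / k` at `c`. -/
noncomputable def lam (c k : ℝ) : ℝ := 3 / c - 3 * k / c ^ 2 + k ^ 2 / c ^ 3

lemma three_point {k a b σ τ : ℝ} (ha : 1 ≤ a) (hb : 1 ≤ b) (hσ : 0 ≤ σ) (hτ : 0 ≤ τ)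
    (h1 : k * (σ + τ) = σ * a + τ * b) (h2 : σ + τ = 0 → k = a) :
    1 ≤ k ∧ (k - a) * (k - b) = -(1 / 4 * (hh σ τ * hh σ τ) * (a - b) ^ 2) ∧
      hh σ τ / k = hh (σ * a) (τ * b) * (1 / √a * (1 / √b)) := by
  rcases (add_nonneg hσ hτ).eq_or_lt with h0 | h0
  · have e1 : σ = 0 := by linarith
    have e2 : τ = 0 := by linarith
    rw [h2 h0.symm, e1, e2]
    simp [hh, ha]
  · have hk : 1 ≤ k := by
      by_contra hk
      push Not at hk
      nlinarith [mul_nonneg hσ (sub_nonneg.2 ha), mul_nonneg hτ (sub_nonneg.2 hb)]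
    have ek : k = (σ * a + τ * b) / (σ + τ) := by rw [← h1]; field_simp
    refine ⟨hk, ?_, ?_⟩
    · have e : hh σ τ * hh σ τ = 4 * σ * τ / (σ + τ) ^ 2 := by
        have e1 := Real.mul_self_sqrt hσ
        have e2 := Real.mul_self_sqrt hτ
        rw [hh, div_mul_div_comm, ← sq (σ + τ)]
        congr 1
        linear_combination (4 * √τ * √τ) * e1 + 4 * σ * e2
      rw [e, ek]
      field_simp
      ring
    · have ha' : 0 < √a := Real.sqrt_pos.2 (by linarith)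
      have hb' : 0 < √b := Real.sqrt_pos.2 (by linarith)
      rw [hh, hh, Real.sqrt_mul hσ, Real.sqrt_mul hτ, ← h1]
      have : k ≠ 0 := by linarith
      field_simp

lemma block {k : α → β → ℝ} {a σ : α → ℝ} {b τ : β → ℝ} {N c ω : ℝ} (hk : Mul s t k N)
    (ha : ∀ i ∈ s, 1 ≤ a i ∧ a i ≤ N ∧ |a i - c| ≤ ω ∧ 0 ≤ σ i)
    (hb : ∀ j ∈ t, 1 ≤ b j ∧ b j ≤ N ∧ |b j - c| ≤ ω ∧ 0 ≤ τ j)
    (hc : 1 ≤ c) (hc' : c ≤ N) (hω : 0 ≤ ω)
    (h3 : ∀ i ∈ s, ∀ j ∈ t, k i j * (σ i + τ j) = σ i * a i + τ j * b j ∧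
      (σ i + τ j = 0 → k i j = a i)) :
    Mul s t (fun i j => 1 / k i j - lam c (k i j)) (48 * N ^ 2 * ω ^ 2) := by
  have hN : 1 ≤ N := hc.trans hc'
  have hN0 : 0 ≤ N := by linarith
  have tp := fun i hi j hj => three_point (ha i hi).1 (hb j hj).1 (ha i hi).2.2.2 (hb j hj).2.2.2
    (h3 i hi j hj).1 (h3 i hi j hj).2
  have inv1 : ∀ x : ℝ, 1 ≤ x → |1 / x| ≤ 1 := fun x hx => by
    rw [abs_of_pos (by positivity)]
    exact div_le_one_of_le₀ hx (by linarith)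
  have inv2 : ∀ x : ℝ, 1 ≤ x → |1 / √x| ≤ 1 := fun x hx => inv1 _ (Real.one_le_sqrt.2 hx)
  have abs1 : ∀ x : ℝ, 1 ≤ x → x ≤ N → |x| ≤ N := fun x h1 h2 => by
    rw [abs_of_pos (by linarith)]; exact h2
  have mH : Mul s t (fun i j => hh (σ i) (τ j)) 1 :=
    mul_hh (fun i hi => (ha i hi).2.2.2) fun j hj => (hb j hj).2.2.2
  have mH' : Mul s t (fun i j => hh (σ i * a i) (τ j * b j)) 1 :=
    mul_hh (fun i hi => mul_nonneg (ha i hi).2.2.2 (by linarith [(ha i hi).1]))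
      fun j hj => mul_nonneg (hb j hj).2.2.2 (by linarith [(hb j hj).1])
  have m1 : Mul s t (fun i _ => 1 / a i) 1 := mul_row zero_le_one fun i hi => inv1 _ (ha i hi).1
  have m2 : Mul s t (fun _ j => 1 / b j) 1 := mul_col zero_le_one fun j hj => inv1 _ (hb j hj).1
  have m3 : Mul s t (fun i _ => a i) N := mul_row hN0 fun i hi => abs1 _ (ha i hi).1 (ha i hi).2.1
  have m4 : Mul s t (fun _ j => b j) N := mul_col hN0 fun j hj => abs1 _ (hb j hj).1 (hb j hj).2.1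
  have m5 : Mul s t (fun i j => 1 / √(a i) * (1 / √(b j))) (1 * 1) :=
    mul_rc zero_le_one zero_le_one (fun i hi => inv2 _ (ha i hi).1) fun j hj => inv2 _ (hb j hj).1
  have m6 : Mul s t (fun _ _ => (2 : ℝ)) 2 := mul_const (by norm_num)
  have mL : Mul s t (fun i j => 1 / k i j) (4 * N) := by
    have h := ((m1.add m2).sub ((m1.mul m2 zero_le_one).mul hk hN0)).sub
      ((((((m3.mul m2 zero_le_one).sub m6).add (m1.mul m4 hN0)).mul
        (mH.mul (mH'.mul m5 (by norm_num)) (by norm_num)) (by norm_num))).smul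
        (c := 1 / 4) (C := 1 / 4) (by norm_num) (by positivity))
    refine (h.mono (by linarith)).congr fun i hi j hj => ?_
    obtain ⟨e0, e1, e2⟩ := tp i hi j hj
    have := (ha i hi).1
    have := (hb j hj).1
    rw [← e2]
    have e3 : 1 / k i j = 1 / a i + 1 / b j - 1 / a i * (1 / b j) * k i j +
        (k i j - a i) * (k i j - b j) / (a i * b j * k i j) := by
      field_simp
      ring
    rw [e3, e1]
    field_simp
    ring
  have n1 : Mul s t (fun i _ => a i - c) ω := mul_row hω fun i hi => (ha i hi).2.2.1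
  have n2 : Mul s t (fun _ j => b j - c) ω := mul_col hω fun j hj => (hb j hj).2.2.1
  have n3 : Mul s t (fun i _ => a i - c) N := mul_row hN0 fun i hi => by
    rw [abs_le]; constructor <;> linarith [(ha i hi).1, (ha i hi).2.1]
  have n4 : Mul s t (fun _ j => b j - c) N := mul_col hN0 fun j hj => by
    rw [abs_le]; constructor <;> linarith [(hb j hj).1, (hb j hj).2.1]
  have n5 : Mul s t (fun i j => k i j - c) (N + N) := hk.sub (mul_const (abs1 c hc hc'))
  have mK : Mul s t (fun i j => (k i j - c) ^ 3) (12 * N * ω ^ 2) := by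
    have h := (((((n1.mul n1 hω).add (n1.mul n2 hω)).add (n2.mul n2 hω)).mul n5 (by positivity)).sub
      ((n1.mul n2 hω).mul (n3.add n4) (by positivity))).sub
      ((((mH.mul mH zero_le_one).mul ((n1.sub n2).mul (n1.sub n2) (by positivity))
        (by positivity)).mul ((n5.add n3).add n4) (by positivity)).smul
        (c := 1 / 4) (C := 1 / 4) (by norm_num) (by positivity))
    refine (h.mono (le_of_eq (by ring))).congr fun i hi j hj => ?_
    obtain ⟨-, e1, -⟩ := tp i hi j hj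
    linear_combination (k i j - c + (a i - c) + (b j - c)) * e1
  have hc3 : |-(1 / c ^ 3)| ≤ 1 := by
    rw [abs_neg]
    exact inv1 _ (one_le_pow₀ hc)
  have h := (mK.mul mL (by positivity)).smul hc3 (by positivity)
  refine (h.mono (le_of_eq (by ring))).congr fun i hi j hj => ?_
  obtain ⟨e0, -, -⟩ := tp i hi j hj
  rw [lam]
  field_simp
  ring

/-- Changing the base point of the Taylor polynomial. -/
lemma mul_lam_sub {k : α → β → ℝ} {N c c' : ℝ} (hk : Mul s t k N) (hN : 1 ≤ N) (hc : 1 ≤ c)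
    (hc' : 1 ≤ c') :
    Mul s t (fun i j => lam c' (k i j) - lam c (k i j)) (12 * N ^ 2 * |c' - c|) := by
  have hN0 : 0 ≤ N := by linarith
  have hx : 0 < 1 / c ∧ 1 / c ≤ 1 := ⟨by positivity, div_le_one_of_le₀ hc (by linarith)⟩
  have hy : 0 < 1 / c' ∧ 1 / c' ≤ 1 := ⟨by positivity, div_le_one_of_le₀ hc' (by linarith)⟩
  have h1 : |1 / c' - 1 / c| ≤ |c' - c| := by
    have e : 1 / c' - 1 / c = -(c' - c) * (1 / c * (1 / c')) := by field_simp; ring
    rw [e, abs_mul, abs_neg]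
    refine mul_le_of_le_one_right (abs_nonneg _) ?_
    rw [abs_of_pos (mul_pos hx.1 hy.1)]
    exact mul_le_one₀ hx.2 hy.1.le hy.2
  set x := 1 / c with ex
  set y := 1 / c' with ey
  have h2 : |y ^ 2 - x ^ 2| ≤ 2 * |c' - c| := by
    rw [show y ^ 2 - x ^ 2 = (y + x) * (y - x) by ring, abs_mul]
    refine mul_le_mul ?_ h1 (abs_nonneg _) (by norm_num)
    rw [abs_of_pos (by linarith)]
    linarith
  have h3 : |y ^ 3 - x ^ 3| ≤ 3 * |c' - c| := by
    rw [show y ^ 3 - x ^ 3 = (y * y + y * x + x * x) * (y - x) by ring, abs_mul]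
    refine mul_le_mul ?_ h1 (abs_nonneg _) (by norm_num)
    rw [abs_of_pos (by nlinarith)]
    nlinarith
  have h := (((mul_const (s := s) (t := t) h1).smul (c := 3) (C := 3) (by norm_num)
    (abs_nonneg _)).sub ((hk.smul h2 hN0).smul (c := 3) (C := 3) (by norm_num) (by positivity))).add
    ((hk.mul hk hN0).smul h3 (by positivity))
  refine (h.mono ?_).congr fun i _ j _ => ?_
  · have := abs_nonneg (c' - c)
    have h4 : N ≤ N ^ 2 := by nlinarith
    nlinarith [mul_le_mul_of_nonneg_right h4 this, mul_le_mul_of_nonneg_right hN this]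
  · simp only [lam, ex, ey]
    field_simp
    ring

lemma mul_lam {k : α → β → ℝ} {N c : ℝ} (hk : Mul s t k N) (hN : 1 ≤ N) (hc : 1 ≤ c) :
    Mul s t (fun i j => lam c (k i j)) (7 * N ^ 2) := by
  have hN0 : 0 ≤ N := by linarith
  have inv1 : ∀ x : ℝ, 1 ≤ x → |1 / x| ≤ 1 := fun x hx => by
    rw [abs_of_pos (by positivity)]
    exact div_le_one_of_le₀ hx (by linarith)
  have h := (((mul_const (s := s) (t := t) (inv1 c hc)).smul (c := 3) (C := 3) (by norm_num)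
    zero_le_one).sub ((hk.smul (inv1 _ (one_le_pow₀ (n := 2) hc)) hN0).smul (c := 3) (C := 3)
      (by norm_num) (by positivity))).add
    ((hk.mul hk hN0).smul (inv1 _ (one_le_pow₀ (n := 3) hc)) (by positivity))
  refine (h.mono (by nlinarith)).congr fun i _ j _ => ?_
  simp only [lam]
  field_simp

/-! Abel summation -/

lemma abel_anti (z : ℕ → ℝ) (V : ℝ) (m : ℕ) : ∀ (n : ℕ) (w : ℕ → ℝ) (u : ℝ), 0 ≤ u →
    (∀ r, m ≤ r → r ≤ n → |∑ i ∈ Ico m r, z i| ≤ V) →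
    (∀ i, m ≤ i → i < n → 0 ≤ w i ∧ w i ≤ u) →
    (∀ i j, m ≤ i → i ≤ j → j < n → w j ≤ w i) → 0 ≤ V → |∑ i ∈ Ico m n, w i * z i| ≤ u * V := by
  intro n
  induction n with
  | zero => intro w u hu _ _ _ hV; simpa using mul_nonneg hu hV
  | succ n ih =>
    intro w u hu h1 h2 h3 hV
    rcases lt_or_ge n m with hm | hm
    · rw [Ico_eq_empty_of_le (by omega)]
      simpa using mul_nonneg hu hV
    have h4 := h2 n hm (by omega)
    have h5 := ih (fun i => w i - w n) (u - w n) (by linarith) (fun r a b => h1 r a (by omega))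
      (fun i a b => ⟨sub_nonneg.2 (h3 i n a b.le (by omega)), by linarith [(h2 i a (by omega)).2]⟩)
      (fun i j a b c => by linarith [h3 i j a b (by omega)]) hV
    have e : ∑ i ∈ Ico m (n + 1), w i * z i =
        ∑ i ∈ Ico m n, (w i - w n) * z i + w n * ∑ i ∈ Ico m (n + 1), z i := by
      simp only [sum_Ico_succ_top hm, sub_mul, sum_sub_distrib, ← mul_sum]
      ring
    rw [e]
    refine (abs_add_le _ _).trans ?_
    rw [abs_mul, abs_of_nonneg h4.1]
    nlinarith [mul_le_mul_of_nonneg_left (h1 (n + 1) (by omega) le_rfl) h4.1]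

/-- `w` takes values in `[0, 1]` and is monotone or antitone on `[m, n)`. -/
def Wt (m n : ℕ) (w : ℕ → ℝ) : Prop :=
  (∀ i, m ≤ i → i < n → 0 ≤ w i ∧ w i ≤ 1) ∧
    ((∀ i j, m ≤ i → i ≤ j → j < n → w j ≤ w i) ∨ (∀ i j, m ≤ i → i ≤ j → j < n → w i ≤ w j))

lemma Wt.one_sub {m n : ℕ} {w : ℕ → ℝ} (h : Wt m n w) : Wt m n fun i => 1 - w i := by
  refine ⟨fun i a b => ⟨by linarith [(h.1 i a b).2], by linarith [(h.1 i a b).1]⟩, ?_⟩
  rcases h.2 with h2 | h2
  · exact Or.inr fun i j a b c => by linarith [h2 i j a b c]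
  · exact Or.inl fun i j a b c => by linarith [h2 i j a b c]

lemma wt_one (m n : ℕ) : Wt m n fun _ => 1 :=
  ⟨fun _ _ _ => ⟨zero_le_one, le_rfl⟩, Or.inl fun _ _ _ _ _ => le_rfl⟩

lemma abel {z w : ℕ → ℝ} {V : ℝ} {m n : ℕ} (hw : Wt m n w) (hV : 0 ≤ V)
    (h : ∀ r, m ≤ r → r ≤ n → |∑ i ∈ Ico m r, z i| ≤ V) :
    |∑ i ∈ Ico m n, w i * z i| ≤ 2 * V := by
  rcases hw.2 with h2 | h2
  · have := abel_anti z V m n w 1 zero_le_one h hw.1 h2 hV
    linarith
  · have h3 := abel_anti z V m n (fun i => 1 - w i) 1 zero_le_one h hw.one_sub.1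
      (fun i j a b c => by linarith [h2 i j a b c]) hV
    have h4 := abel_anti z V m n (fun _ => 1) 1 zero_le_one h (wt_one m n).1
      (fun _ _ _ _ _ => le_rfl) hV
    simp only [sub_mul, sum_sub_distrib] at h3
    rw [abs_le] at h3 h4 ⊢
    constructor <;> linarith

lemma abel2 {z : ℕ → ℕ → ℝ} {w w' : ℕ → ℝ} {V : ℝ} {m n m' n' : ℕ} (hw : Wt m n w)
    (hw' : Wt m' n' w') (hV : 0 ≤ V)
    (h : ∀ r, m ≤ r → r ≤ n → ∀ r', m' ≤ r' → r' ≤ n' →
      |∑ i ∈ Ico m r, ∑ j ∈ Ico m' r', z i j| ≤ V) :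
    |∑ i ∈ Ico m n, ∑ j ∈ Ico m' n', w i * w' j * z i j| ≤ 4 * V := by
  have h1 := abel (z := fun i => ∑ j ∈ Ico m' n', w' j * z i j) (V := 2 * V) hw (by linarith)
    fun r a b => by
      rw [sum_comm]
      simp only [← mul_sum]
      refine abel hw' hV fun r' a' b' => ?_
      rw [sum_comm]
      exact h r a b r' a' b'
  simp only [mul_sum, ← mul_assoc] at h1
  linarith

end Pool.Agent.MP_24fbf1_an.Bi

end

-- part MP_24fbf1_an.Bi.Local
section

/-!
Local analysis of a divided difference kernel on the neighbourhood of one node.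
-/

set_option autoImplicit false

open Finset

namespace Pool.Agent.MP_24fbf1_an.Bi

/-- A normalised divided difference kernel along a monotone sequence. -/
structure Ker (N : ℝ) (ξ F : ℕ → ℝ) (K : ℕ → ℕ → ℝ) : Prop where
  mono : Monotone ξ
  one_le : ∀ x y, 1 ≤ K x y
  le_N : ∀ x y, K x y ≤ N
  symm : ∀ x y, K x y = K y x
  diff : ∀ x y, K x y * (ξ y - ξ x) = F y - F x
  diag : ∀ x y, ξ x = ξ y → K x y = 1
  mul : ∀ {α β : Type} (s : Finset α) (t : Finset β) (u : α → ℕ) (v : β → ℕ),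
    Mul s t (fun i j => K (u i) (v j)) N

/-- Barycentric coordinate. -/
noncomputable def tau (ξ : ℕ → ℝ) (x p y : ℕ) : ℝ := (ξ p - ξ x) / (ξ y - ξ x)

variable {N : ℝ} {ξ F : ℕ → ℝ} {K : ℕ → ℕ → ℝ}

lemma Ker.three (hK : Ker N ξ F K) {x p y : ℕ} (h1 : x ≤ p) (h2 : p ≤ y) :
    K x y = tau ξ x p y * K x p + (1 - tau ξ x p y) * K p y := by
  have a1 := hK.mono h1
  have a2 := hK.mono h2
  rcases (a1.trans a2).eq_or_lt with h | h
  · rw [hK.diag x y h, hK.diag x p (by linarith), hK.diag p y (by linarith)]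
    ring
  · have e1 := hK.diff x y
    have e2 := hK.diff x p
    have e3 := hK.diff p y
    have : ξ y - ξ x ≠ 0 := by linarith
    rw [tau]
    field_simp
    linarith

lemma tau_mem (hξ : Monotone ξ) {x p y : ℕ} (h1 : x ≤ p) (h2 : p ≤ y) :
    0 ≤ tau ξ x p y ∧ tau ξ x p y ≤ 1 := by
  have a1 := hξ h1
  have a2 := hξ h2
  exact ⟨div_nonneg (by linarith) (by linarith), div_le_one_of_le₀ (by linarith) (by linarith)⟩

lemma wt_mid (hξ : Monotone ξ) {x y m n : ℕ} (h1 : x ≤ m) (h2 : n ≤ y) :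
    Wt m n fun p => tau ξ x p y := by
  refine ⟨fun i a b => tau_mem hξ (by omega) (by omega), Or.inr fun i j a b c => ?_⟩
  have a1 := hξ b
  have a2 := hξ (show x ≤ y by omega)
  exact div_le_div_of_nonneg_right (by linarith) (by linarith)

lemma wt_left (hξ : Monotone ξ) {p y m n : ℕ} (h1 : n ≤ p) (h2 : p ≤ y) :
    Wt m n fun x => tau ξ x p y := by
  refine ⟨fun i a b => tau_mem hξ (by omega) (by omega), Or.inl fun i j a b c => ?_⟩
  have a1 := hξ b
  have a2 := hξ (show j ≤ p by omega)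
  have a3 := hξ h2
  show tau ξ j p y ≤ tau ξ i p y
  rcases (a2.trans a3).eq_or_lt with h | h
  · have : tau ξ j p y = 0 := by rw [tau, h, sub_self, div_zero]
    rw [this]
    exact (tau_mem hξ (by omega) h2).1
  · rw [tau, tau, div_le_div_iff₀ (by linarith) (by linarith)]
    nlinarith [mul_nonneg (sub_nonneg.2 a1) (sub_nonneg.2 a3)]

lemma wt_right (hξ : Monotone ξ) {x p m n : ℕ} (h1 : x ≤ p) (h2 : p ≤ m) :
    Wt m n fun y => tau ξ x p y := by
  refine ⟨fun i a b => tau_mem hξ (by omega) (by omega), Or.inl fun i j a b c => ?_⟩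
  have a1 := hξ b
  have a2 := hξ (show p ≤ i by omega)
  have a3 := hξ h1
  rcases (a3.trans a2).eq_or_lt with h | h
  · have : ξ p - ξ x = 0 := by linarith
    simp [tau, this]
  · exact div_le_div_of_nonneg_left (by linarith) (by linarith) (by linarith)

lemma tau_split1 (hξ : Monotone ξ) {x p m y : ℕ} (h1 : x ≤ p) (h2 : p ≤ m) :
    tau ξ x p y = tau ξ x p m * tau ξ x m y := by
  have a1 := hξ h1
  have a2 := hξ h2
  rcases (a1.trans a2).eq_or_lt with h | h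
  · have : ξ p - ξ x = 0 := by linarith
    simp [tau, this]
  · have : ξ m - ξ x ≠ 0 := by linarith
    simp only [tau]
    rw [div_mul_div_comm, mul_comm (ξ m - ξ x), mul_div_mul_right _ _ this]

lemma tau_split2 (hξ : Monotone ξ) {x m p y : ℕ} (h1 : x ≤ m) (h2 : m ≤ p) (h3 : p ≤ y) :
    tau ξ x p y = tau ξ x m y + (1 - tau ξ x m y) * tau ξ m p y := by
  have a1 := hξ h1
  have a2 := hξ h2
  have a3 := hξ h3
  rcases (a2.trans a3).eq_or_lt with h | h
  · have : ξ p = ξ m := by linarith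
    simp [tau, this]
  · have b1 : ξ y - ξ m ≠ 0 := by linarith
    have b2 : ξ y - ξ x ≠ 0 := by linarith
    simp only [tau]
    field_simp
    ring

/-- Discrepancy bounds on the neighbourhood `[l, l + 11 h)`. -/
structure Loc (K : ℕ → ℕ → ℝ) (l h : ℕ) (φ : ℕ → ℝ) (φb W E : ℝ) : Prop where
  W0 : 0 ≤ W
  E0 : 0 ≤ E
  hW : ∀ x m r, l ≤ x → x < l + 11 * h → l ≤ m → m ≤ r → r ≤ l + 11 * h →
    |∑ y ∈ Ico m r, (K x y - φ x)| ≤ W * h
  hE : ∀ m r m' r', l ≤ m → m ≤ r → r ≤ l + 11 * h → l ≤ m' → m' ≤ r' → r' ≤ l + 11 * h →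
    |∑ x ∈ Ico m r, ∑ y ∈ Ico m' r', (K x y - φ x - φ y + φb)| ≤ E * h ^ 2

/-- Average over a square block. -/
noncomputable def blk (K : ℕ → ℕ → ℝ) (m m' g : ℕ) : ℝ :=
  (∑ x ∈ Ico m (m + g), ∑ y ∈ Ico m' (m' + g), K x y) / g ^ 2

/-- Average over an interval. -/
noncomputable def av (z : ℕ → ℝ) (m g : ℕ) : ℝ := (∑ x ∈ Ico m (m + g), z x) / g

/-- The base point of the node. -/
noncomputable def cc (K : ℕ → ℕ → ℝ) (l h : ℕ) : ℝ := blk K (l + h) (l + 9 * h) h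

/-- The end to end increment of the node. -/
noncomputable def tt (K : ℕ → ℕ → ℝ) (l h : ℕ) : ℝ := cc K l h - blk K (l + h) (l + h) h

lemma abs_sum_Ico_le {f : ℕ → ℝ} {m g : ℕ} {V : ℝ} (h : ∀ x ∈ Ico m (m + g), |f x| ≤ V) :
    |∑ x ∈ Ico m (m + g), f x| ≤ g * V := by
  refine (abs_sum_le_sum_abs _ _).trans ((sum_le_card_nsmul _ _ V h).trans ?_)
  simp

lemma Ker.blk_mem (hK : Ker N ξ F K) (m m' : ℕ) {g : ℕ} (hg : 0 < g) :
    1 ≤ blk K m m' g ∧ blk K m m' g ≤ N := by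
  have g0 : (0 : ℝ) < g := by exact_mod_cast hg
  have h1 := sum_le_sum fun x (_ : x ∈ Ico m (m + g)) =>
    sum_le_sum fun y (_ : y ∈ Ico m' (m' + g)) => hK.one_le x y
  have h2 := sum_le_sum fun x (_ : x ∈ Ico m (m + g)) =>
    sum_le_sum fun y (_ : y ∈ Ico m' (m' + g)) => hK.le_N x y
  simp only [sum_const, Nat.card_Ico, add_tsub_cancel_left, nsmul_eq_mul] at h1 h2
  rw [blk, le_div_iff₀ (by positivity), div_le_iff₀ (by positivity)]
  constructor <;> nlinarith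

variable {l h : ℕ} {φ : ℕ → ℝ} {φb W E : ℝ}

lemma c_phi (hK : Ker N ξ F K) (hL : Loc K l h φ φb W E) (hh : 0 < h) {x : ℕ}
    (h1 : l + 2 * h ≤ x) (h2 : x ≤ l + 9 * h) : |cc K l h - φ x| ≤ 4 * W := by
  have g0 : (0 : ℝ) < h := by exact_mod_cast hh
  have V0 : 0 ≤ W * h := mul_nonneg hL.W0 g0.le
  have b1 : |∑ b ∈ Ico (l + 9 * h) (l + 9 * h + h), ∑ a ∈ Ico (l + h) (l + h + h),
      tau ξ a x b * (K x a - φ x)| ≤ h * (2 * (W * h)) := by
    refine abs_sum_Ico_le fun b hb => ?_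
    rw [mem_Ico] at hb
    exact abel (wt_left hK.mono (by omega) (by omega)) V0 fun r a b =>
      hL.hW x _ r (by omega) (by omega) (by omega) a (by omega)
  have b2 : |∑ a ∈ Ico (l + h) (l + h + h), ∑ b ∈ Ico (l + 9 * h) (l + 9 * h + h),
      (1 - tau ξ a x b) * (K x b - φ x)| ≤ h * (2 * (W * h)) := by
    refine abs_sum_Ico_le fun a ha => ?_
    rw [mem_Ico] at ha
    exact abel (wt_right hK.mono (by omega) (by omega)).one_sub V0 fun r a b =>
      hL.hW x _ r (by omega) (by omega) (by omega) a (by omega)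
  have e : (cc K l h - φ x) * h ^ 2 = ∑ a ∈ Ico (l + h) (l + h + h),
      ∑ b ∈ Ico (l + 9 * h) (l + 9 * h + h),
        (tau ξ a x b * (K x a - φ x) + (1 - tau ξ a x b) * (K x b - φ x)) := by
    rw [sum_congr rfl fun a ha => sum_congr rfl fun b hb => show _ = K a b - φ x by
      rw [mem_Ico] at ha hb
      rw [hK.three (x := a) (p := x) (y := b) (by omega) (by omega), hK.symm x a]
      ring]
    simp only [sum_sub_distrib, sum_const, Nat.card_Ico, add_tsub_cancel_left, nsmul_eq_mul, cc, blk]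
    field_simp
  simp only [sum_add_distrib] at e
  rw [sum_comm] at b1
  have b3 : |(cc K l h - φ x) * h ^ 2| ≤ 4 * W * h ^ 2 := by
    rw [e]
    refine (abs_add_le _ _).trans ?_
    nlinarith
  rw [abs_mul, abs_of_pos (by positivity : (0 : ℝ) < h ^ 2)] at b3
  exact le_of_mul_le_mul_right b3 (by positivity)

lemma pt_bound {g : ℕ} (hK : Ker N ξ F K) (hL : Loc K l (16 * g) φ φb W E) (hg : 0 < g)
    {x y m : ℕ} (h1 : l + 32 * g ≤ x) (h2 : x ≤ m) (h3 : m + g ≤ y) (h4 : y ≤ l + 144 * g) :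
    |K x y - cc K l (16 * g)| ≤ 68 * W := by
  have g0 : (0 : ℝ) < g := by exact_mod_cast hg
  have V0 : 0 ≤ W * ((16 * g : ℕ) : ℝ) := mul_nonneg hL.W0 (Nat.cast_nonneg _)
  have c1 := c_phi hK hL (by omega) (x := x) (by omega) (by omega)
  have c2 := c_phi hK hL (by omega) (x := y) (by omega) (by omega)
  set c := cc K l (16 * g)
  have w := wt_mid hK.mono (x := x) (y := y) (m := m) (n := m + g) h2 h3
  have b1 := abel (z := fun p => K x p - φ x) w V0 fun r a b =>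
    hL.hW x _ r (by omega) (by omega) (by omega) a (by omega)
  have b2 := abel (z := fun p => K y p - φ y) w.one_sub V0 fun r a b =>
    hL.hW y _ r (by omega) (by omega) (by omega) a (by omega)
  have b3 : |∑ p ∈ Ico m (m + g), (tau ξ x p y * (φ x - c) + (1 - tau ξ x p y) * (φ y - c))| ≤
      g * (4 * W) := by
    refine abs_sum_Ico_le fun p hp => ?_
    rw [mem_Ico] at hp
    have := w.1 p hp.1 hp.2
    rw [abs_le] at c1 c2 ⊢
    constructor <;> nlinarith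
  have e : (K x y - c) * g = ∑ p ∈ Ico m (m + g), tau ξ x p y * (K x p - φ x) +
      ∑ p ∈ Ico m (m + g), (1 - tau ξ x p y) * (K y p - φ y) +
      ∑ p ∈ Ico m (m + g), (tau ξ x p y * (φ x - c) + (1 - tau ξ x p y) * (φ y - c)) := by
    rw [← sum_add_distrib, ← sum_add_distrib, sum_congr rfl fun p hp => show _ = K x y - c by
      rw [mem_Ico] at hp
      rw [hK.three (x := x) (p := p) (y := y) (by omega) (by omega), hK.symm y p]
      ring]
    simp only [sum_const, Nat.card_Ico, add_tsub_cancel_left, nsmul_eq_mul]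
    ring
  have b4 : |(K x y - c) * g| ≤ 68 * W * g := by
    rw [e]
    refine (abs_add_le _ _).trans ((add_le_add_left (abs_add_le _ _) _).trans ?_)
    push_cast at b1 b2
    nlinarith
  rw [abs_mul, abs_of_pos g0] at b4
  exact le_of_mul_le_mul_right b4 g0

lemma affine (hK : Ker N ξ F K) (hL : Loc K l h φ φb W E) (hh : 0 < h) :
    ∃ α β : ℝ, ∀ m r, l + h ≤ m → m ≤ r → r ≤ l + 10 * h →
      |∑ p ∈ Ico m r, (φ p - (α + β * ξ p))| ≤ 16 * E * h := by
  have g0 : (0 : ℝ) < h := by exact_mod_cast hh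
  have V0 : 0 ≤ E * (h : ℝ) ^ 2 := mul_nonneg hL.E0 (sq_nonneg _)
  set Z : ℕ → ℕ → ℝ := fun x y => K x y - φ x - φ y + φb with hZ
  refine ⟨(∑ x ∈ Ico l (l + h), ∑ y ∈ Ico (l + 10 * h) (l + 10 * h + h),
      (Z x y + φ x - (φ y - φ x) * (ξ x / (ξ y - ξ x)))) / h ^ 2,
    (∑ x ∈ Ico l (l + h), ∑ y ∈ Ico (l + 10 * h) (l + 10 * h + h),
      (φ y - φ x) / (ξ y - ξ x)) / h ^ 2, fun m r a1 a2 a3 => ?_⟩
  have b1 : |∑ y ∈ Ico (l + 10 * h) (l + 10 * h + h), ∑ x ∈ Ico l (l + h), ∑ p ∈ Ico m r,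
      tau ξ x p y * Z x p| ≤ h * (8 * (E * h ^ 2)) := by
    refine abs_sum_Ico_le fun y hy => ?_
    rw [mem_Ico] at hy
    have w1 : Wt l (l + h) fun x => tau ξ x m y := wt_left hK.mono a1 (by omega)
    have w2 : Wt m r fun p => tau ξ m p y := wt_mid hK.mono le_rfl (by omega)
    have hz : ∀ s, l ≤ s → s ≤ l + h → ∀ s', m ≤ s' → s' ≤ r →
        |∑ i ∈ Ico l s, ∑ j ∈ Ico m s', Z i j| ≤ E * h ^ 2 := fun s c1 c2 s' c3 c4 =>
      hL.hE l s m s' le_rfl c1 (by omega) (by omega) c3 (by omega)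
    have c1 := abel2 w1 (wt_one m r) V0 hz
    have c2 := abel2 w1.one_sub w2 V0 hz
    rw [sum_congr rfl fun x hx => sum_congr rfl fun p hp => show _ =
      tau ξ x m y * 1 * Z x p + (1 - tau ξ x m y) * tau ξ m p y * Z x p by
        rw [mem_Ico] at hx hp
        rw [tau_split2 hK.mono (x := x) (m := m) (p := p) (y := y) (by omega) hp.1 (by omega)]
        ring]
    simp only [sum_add_distrib]
    refine (abs_add_le _ _).trans ?_
    linarith
  have b2 : |∑ x ∈ Ico l (l + h), ∑ p ∈ Ico m r, ∑ y ∈ Ico (l + 10 * h) (l + 10 * h + h),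
      (1 - tau ξ x p y) * Z p y| ≤ h * (8 * (E * h ^ 2)) := by
    refine abs_sum_Ico_le fun x hx => ?_
    rw [mem_Ico] at hx
    have w1 : Wt m r fun p => tau ξ x p (l + 10 * h) := wt_mid hK.mono (by omega) a3
    have w2 : Wt (l + 10 * h) (l + 10 * h + h) fun y => tau ξ x (l + 10 * h) y :=
      wt_right hK.mono (by omega) le_rfl
    have hz : ∀ s, m ≤ s → s ≤ r → ∀ s', l + 10 * h ≤ s' → s' ≤ l + 10 * h + h →
        |∑ i ∈ Ico m s, ∑ j ∈ Ico (l + 10 * h) s', Z i j| ≤ E * h ^ 2 := fun s c1 c2 s' c3 c4 =>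
      hL.hE m s _ s' (by omega) c1 (by omega) (by omega) c3 (by omega)
    have c1 := hz r a2 le_rfl _ (Nat.le_add_right _ _) le_rfl
    have c2 := abel2 w1 w2 V0 hz
    rw [sum_congr rfl fun p hp => sum_congr rfl fun y hy => show _ =
      Z p y - tau ξ x p (l + 10 * h) * tau ξ x (l + 10 * h) y * Z p y by
        rw [mem_Ico] at hy hp
        rw [tau_split1 hK.mono (x := x) (m := l + 10 * h) (p := p) (y := y) (by omega) (by omega)]
        ring]
    simp only [sum_sub_distrib]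
    refine (abs_sub _ _).trans ?_
    linarith
  have e : ∀ p ∈ Ico m r, (φ p - ((∑ x ∈ Ico l (l + h), ∑ y ∈ Ico (l + 10 * h) (l + 10 * h + h),
      (Z x y + φ x - (φ y - φ x) * (ξ x / (ξ y - ξ x)))) / h ^ 2 +
      (∑ x ∈ Ico l (l + h), ∑ y ∈ Ico (l + 10 * h) (l + 10 * h + h),
        (φ y - φ x) / (ξ y - ξ x)) / h ^ 2 * ξ p)) =
      -(∑ x ∈ Ico l (l + h), ∑ y ∈ Ico (l + 10 * h) (l + 10 * h + h),
        (tau ξ x p y * Z x p + (1 - tau ξ x p y) * Z p y)) / h ^ 2 := by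
    intro p hp
    rw [mem_Ico] at hp
    rw [sum_congr rfl fun x hx => sum_congr rfl fun y hy =>
      show tau ξ x p y * Z x p + (1 - tau ξ x p y) * Z p y =
        (Z x y + φ x - (φ y - φ x) * (ξ x / (ξ y - ξ x))) + (φ y - φ x) / (ξ y - ξ x) * ξ p - φ p by
        rw [mem_Ico] at hx hy
        simp only [hZ]
        rw [hK.three (x := x) (p := p) (y := y) (by omega) (by omega), tau]
        ring]
    generalize (fun x y => Z x y + φ x - (φ y - φ x) * (ξ x / (ξ y - ξ x))) = A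
    simp only [sum_sub_distrib, sum_add_distrib, ← sum_mul, sum_const, Nat.card_Ico,
      add_tsub_cancel_left, nsmul_eq_mul]
    field_simp
    ring
  rw [sum_congr rfl e, ← sum_div, abs_div, abs_of_pos (by positivity : (0 : ℝ) < h ^ 2),
    div_le_iff₀ (by positivity), sum_neg_distrib, abs_neg]
  simp only [sum_add_distrib]
  have e1 : ∑ p ∈ Ico m r, ∑ x ∈ Ico l (l + h), ∑ y ∈ Ico (l + 10 * h) (l + 10 * h + h),
      tau ξ x p y * Z x p = ∑ y ∈ Ico (l + 10 * h) (l + 10 * h + h), ∑ x ∈ Ico l (l + h),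
        ∑ p ∈ Ico m r, tau ξ x p y * Z x p := by
    rw [sum_comm, sum_congr rfl fun x _ => sum_comm, sum_comm]
  rw [e1, sum_comm (s := Ico m r)]
  refine (abs_add_le _ _).trans ?_
  nlinarith

lemma av_le (hξ : Monotone ξ) {m g r : ℕ} (hg : 0 < g) (h : m + g ≤ r) : av ξ m g ≤ ξ r := by
  have g0 : (0 : ℝ) < g := by exact_mod_cast hg
  have h1 := sum_le_sum fun x (hx : x ∈ Ico m (m + g)) =>
    hξ (show x ≤ r by rw [mem_Ico] at hx; omega)
  simp only [sum_const, Nat.card_Ico, add_tsub_cancel_left, nsmul_eq_mul] at h1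
  rw [av, div_le_iff₀ g0]
  linarith

lemma le_av (hξ : Monotone ξ) {m g r : ℕ} (hg : 0 < g) (h : r ≤ m) : ξ r ≤ av ξ m g := by
  have g0 : (0 : ℝ) < g := by exact_mod_cast hg
  have h1 := sum_le_sum fun x (hx : x ∈ Ico m (m + g)) =>
    hξ (show r ≤ x by rw [mem_Ico] at hx; omega)
  simp only [sum_const, Nat.card_Ico, add_tsub_cancel_left, nsmul_eq_mul] at h1
  rw [av, le_div_iff₀ g0]
  linarith

lemma blk_affine (hL : Loc K l h φ φb W E) {α β : ℝ}
    (hA : ∀ m r, l + h ≤ m → m ≤ r → r ≤ l + 10 * h →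
      |∑ p ∈ Ico m r, (φ p - (α + β * ξ p))| ≤ 16 * E * h) {g m m' : ℕ} (hg : 0 < g) (n : ℕ)
    (hn : h = n * g) (a1 : l + h ≤ m) (a2 : m + g ≤ l + 10 * h) (a3 : l + h ≤ m')
    (a4 : m' + g ≤ l + 10 * h) :
    |blk K m m' g - (2 * α - φb) - β * (av ξ m g + av ξ m' g)| ≤ (n ^ 2 + 32 * n) * E := by
  have g0 : (0 : ℝ) < g := by exact_mod_cast hg
  have b1 := hL.hE m (m + g) m' (m' + g) (by omega) (by omega) (by omega) (by omega) (by omega)
    (by omega)
  have b2 := hA m (m + g) a1 (by omega) a2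
  have b3 := hA m' (m' + g) a3 (by omega) a4
  have e : (blk K m m' g - (2 * α - φb) - β * (av ξ m g + av ξ m' g)) * g ^ 2 =
      ∑ x ∈ Ico m (m + g), ∑ y ∈ Ico m' (m' + g), (K x y - φ x - φ y + φb) +
        g * ∑ p ∈ Ico m (m + g), (φ p - (α + β * ξ p)) +
        g * ∑ p ∈ Ico m' (m' + g), (φ p - (α + β * ξ p)) := by
    simp only [sum_sub_distrib, sum_add_distrib, ← mul_sum, sum_const, Nat.card_Ico,
      add_tsub_cancel_left, nsmul_eq_mul, blk, av]
    field_simp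
    ring
  have e2 : (h : ℝ) = n * g := by exact_mod_cast hn
  have b4 : |(blk K m m' g - (2 * α - φb) - β * (av ξ m g + av ξ m' g)) * g ^ 2| ≤
      (n ^ 2 + 32 * n) * E * g ^ 2 := by
    rw [e]
    refine (abs_add_le _ _).trans ((add_le_add_left (abs_add_le _ _) _).trans ?_)
    rw [abs_mul, abs_mul, abs_of_pos g0]
    rw [e2] at b1 b2 b3
    nlinarith [mul_le_mul_of_nonneg_left b2 g0.le, mul_le_mul_of_nonneg_left b3 g0.le]
  rw [abs_mul, abs_of_pos (by positivity : (0 : ℝ) < g ^ 2)] at b4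
  exact le_of_mul_le_mul_right b4 (by positivity)

lemma variation {g : ℕ} (hK : Ker N ξ F K) (hL : Loc K l (16 * g) φ φb W E) (hg : 0 < g) :
    (∀ i, i < 16 → |cc K (l + (75 + i) * g) g - cc K l (16 * g)| ≤ |tt K l (16 * g)| + 915 * E) ∧
      ∑ i ∈ range 16, |tt K (l + (75 + i) * g) g| ≤ 8 * |tt K l (16 * g)| + 25104 * E := by
  obtain ⟨α, β, hA⟩ := affine hK hL (by omega)
  have E0 := hL.E0
  set XA := av ξ (l + 16 * g) (16 * g) with hXA
  set XB := av ξ (l + 9 * (16 * g)) (16 * g) with hXB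
  have t1 := blk_affine hL hA (g := 16 * g) (m := l + 16 * g) (m' := l + 9 * (16 * g)) (by omega) 1
    (by omega) le_rfl (by omega) (by omega) (by omega)
  have t2 := blk_affine hL hA (g := 16 * g) (m := l + 16 * g) (m' := l + 16 * g) (by omega) 1
    (by omega) le_rfl (by omega) (by omega) (by omega)
  rw [← hXA] at t2
  rw [← hXA, ← hXB] at t1
  have hX : ∀ j, 32 ≤ j → j + 1 ≤ 144 → XA ≤ av ξ (l + j * g) g ∧ av ξ (l + j * g) g ≤ XB := by
    intro j h1 h2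
    have c1 : 32 * g ≤ j * g := Nat.mul_le_mul_right g h1
    have c2 : (j + 1) * g ≤ 144 * g := Nat.mul_le_mul_right g h2
    rw [add_mul] at c2
    exact ⟨(av_le hK.mono (r := l + 32 * g) (by omega) (by omega)).trans
      (le_av hK.mono hg (by omega)), (av_le hK.mono (r := l + 144 * g) hg (by omega)).trans
      (le_av hK.mono (by omega) (by omega))⟩
  have hAB : XA ≤ XB := (hX 32 le_rfl (by norm_num)).1.trans (hX 32 le_rfl (by norm_num)).2
  have ht : |β| * (XB - XA) ≤ |tt K l (16 * g)| + 66 * E := by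
    rw [← abs_of_nonneg (sub_nonneg.2 hAB), ← abs_mul]
    have : |β * (XB - XA) - tt K l (16 * g)| ≤ 66 * E := by
      rw [tt, cc]
      rw [abs_le] at t1 t2 ⊢
      push_cast at t1 t2
      constructor <;> linarith [t1.1, t1.2, t2.1, t2.2]
    linarith [abs_sub_abs_le_abs_sub (β * (XB - XA)) (tt K l (16 * g))]
  have hc : ∀ i, i < 16 →
      |cc K (l + (75 + i) * g) g - (2 * α - φb) -
        β * (av ξ (l + (76 + i) * g) g + av ξ (l + (84 + i) * g) g)| ≤ 768 * E ∧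
      |blk K (l + (75 + i) * g + g) (l + (75 + i) * g + g) g - (2 * α - φb) -
        β * (av ξ (l + (76 + i) * g) g + av ξ (l + (76 + i) * g) g)| ≤ 768 * E := by
    intro i hi
    have c1 : i * g ≤ 15 * g := Nat.mul_le_mul_right g (by omega)
    have e1 : l + (75 + i) * g + g = l + (76 + i) * g := by ring
    have e2 : l + (75 + i) * g + 9 * g = l + (84 + i) * g := by ring
    have e3 : (76 + i) * g = 76 * g + i * g := by ring
    have e4 : (84 + i) * g = 84 * g + i * g := by ring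
    rw [cc, e1, e2]
    have s1 := blk_affine hL hA (m := l + (76 + i) * g) (m' := l + (84 + i) * g) hg 16 rfl
      (by omega) (by omega) (by omega) (by omega)
    have s2 := blk_affine hL hA (m := l + (76 + i) * g) (m' := l + (76 + i) * g) hg 16 rfl
      (by omega) (by omega) (by omega) (by omega)
    push_cast at s1 s2
    constructor <;> linarith
  constructor
  · intro i hi
    have s1 := (hc i hi).1
    have x1 := hX (76 + i) (by omega) (by omega)
    have x2 := hX (84 + i) (by omega) (by omega)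
    have s2 : |β * (av ξ (l + (76 + i) * g) g + av ξ (l + (84 + i) * g) g - XA - XB)| ≤
        |β| * (XB - XA) := by
      rw [abs_mul]
      refine mul_le_mul_of_nonneg_left ?_ (abs_nonneg _)
      rw [abs_le]
      constructor <;> linarith [x1.1, x1.2, x2.1, x2.2]
    rw [cc.eq_def K l]
    rw [abs_le] at s1 s2 t1 ⊢
    push_cast at t1
    constructor <;> linarith [s1.1, s1.2, s2.1, s2.2, t1.1, t1.2]
  · have s3 : ∀ i ∈ range 16, |tt K (l + (75 + i) * g) g| ≤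
        |β| * (av ξ (l + (84 + i) * g) g - av ξ (l + (76 + i) * g) g) + 1536 * E := by
      intro i hi
      rw [mem_range] at hi
      obtain ⟨s1, s2⟩ := hc i hi
      have x1 : av ξ (l + (76 + i) * g) g ≤ av ξ (l + (84 + i) * g) g :=
        (av_le hK.mono (r := l + (84 + i) * g) hg (by rw [add_mul, add_mul]; omega)).trans
          (le_av hK.mono hg le_rfl)
      rw [← abs_of_nonneg (sub_nonneg.2 x1), ← abs_mul]
      have : |tt K (l + (75 + i) * g) g -
          β * (av ξ (l + (84 + i) * g) g - av ξ (l + (76 + i) * g) g)| ≤ 1536 * E := by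
        rw [tt]
        rw [abs_le] at s1 s2 ⊢
        constructor <;> linarith [s1.1, s1.2, s2.1, s2.2]
      linarith [abs_sub_abs_le_abs_sub (tt K (l + (75 + i) * g) g)
        (β * (av ξ (l + (84 + i) * g) g - av ξ (l + (76 + i) * g) g))]
    have s4 := sum_le_sum s3
    rw [sum_add_distrib, ← mul_sum] at s4
    have s5 : ∑ i ∈ range 16, (av ξ (l + (84 + i) * g) g - av ξ (l + (76 + i) * g) g) ≤
        8 * (XB - XA) := by
      simp only [sum_range_succ, range_zero, sum_empty, Nat.reduceAdd]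
      linarith [(hX 76 (by norm_num) (by norm_num)).1, (hX 77 (by norm_num) (by norm_num)).1,
        (hX 78 (by norm_num) (by norm_num)).1, (hX 79 (by norm_num) (by norm_num)).1,
        (hX 80 (by norm_num) (by norm_num)).1, (hX 81 (by norm_num) (by norm_num)).1,
        (hX 82 (by norm_num) (by norm_num)).1, (hX 83 (by norm_num) (by norm_num)).1,
        (hX 92 (by norm_num) (by norm_num)).2, (hX 93 (by norm_num) (by norm_num)).2,
        (hX 94 (by norm_num) (by norm_num)).2, (hX 95 (by norm_num) (by norm_num)).2,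
        (hX 96 (by norm_num) (by norm_num)).2, (hX 97 (by norm_num) (by norm_num)).2,
        (hX 98 (by norm_num) (by norm_num)).2, (hX 99 (by norm_num) (by norm_num)).2]
    have s6 := mul_le_mul_of_nonneg_left s5 (abs_nonneg β)
    simp only [sum_const, card_range, nsmul_eq_mul] at s4
    push_cast at s4
    linarith

end Pool.Agent.MP_24fbf1_an.Bi

end

-- part MP_24fbf1_an.Bi.Bessel
section

/-!
A Bessel family of mean zero step functions attached to 16-adic intervals.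
-/

set_option autoImplicit false

open Finset

namespace Pool.Agent.MP_24fbf1_an.Bi

/-- Indicator of the initial segment `[l, s)` minus its mean over `[l, l + 11 h)`. -/
noncomputable def gg (l h s y : ℕ) : ℝ :=
  (if y ∈ Ico l s then 1 else 0) -
    ((s : ℝ) - l) / (11 * h) * (if y ∈ Ico l (l + 11 * h) then 1 else 0)

lemma gg_theta {l h s : ℕ} (hh : 0 < h) (h1 : l ≤ s) (h2 : s ≤ l + 11 * h) :
    0 ≤ ((s : ℝ) - l) / (11 * h) ∧ ((s : ℝ) - l) / (11 * h) ≤ 1 := by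
  have e1 : (l : ℝ) ≤ s := by exact_mod_cast h1
  have e2 : (s : ℝ) ≤ l + 11 * h := by exact_mod_cast h2
  have e3 : (0 : ℝ) < h := by exact_mod_cast hh
  exact ⟨div_nonneg (by linarith) (by positivity), div_le_one_of_le₀ (by linarith) (by positivity)⟩

lemma gg_abs {l h s : ℕ} (hh : 0 < h) (h1 : l ≤ s) (h2 : s ≤ l + 11 * h) (y : ℕ) :
    |gg l h s y| ≤ 1 := by
  obtain ⟨a, b⟩ := gg_theta hh h1 h2
  rw [gg, abs_le]
  split_ifs <;> constructor <;> linarith

lemma gg_pair {l h s : ℕ} (h2 : s ≤ l + 11 * h) {Ω : Finset ℕ} (hΩ : Ico l (l + 11 * h) ⊆ Ω)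
    (z : ℕ → ℝ) : ∑ y ∈ Ω, z y * gg l h s y =
      ∑ y ∈ Ico l s, z y - ((s : ℝ) - l) / (11 * h) * ∑ y ∈ Ico l (l + 11 * h), z y := by
  have hs : Ico l s ⊆ Ω := (Ico_subset_Ico_right h2).trans hΩ
  have e : ∀ y, z y * gg l h s y = (if y ∈ Ico l s then z y else 0) -
      ((s : ℝ) - l) / (11 * h) * (if y ∈ Ico l (l + 11 * h) then z y else 0) := by
    intro y
    rw [gg]
    split_ifs <;> ring
  simp only [e, sum_sub_distrib, ← mul_sum, sum_ite_mem, inter_eq_right.2 hs, inter_eq_right.2 hΩ]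

lemma gg_zero {l h s y : ℕ} (h2 : s ≤ l + 11 * h) (hy : y ∉ Ico l (l + 11 * h)) :
    gg l h s y = 0 := by
  have : y ∉ Ico l s := fun h => hy (Ico_subset_Ico_right h2 h)
  rw [gg, if_neg hy, if_neg this]
  simp

/-- One of the three break points of the first function lies inside the second interval. -/
def Brk (l h s l' h' : ℕ) : Prop :=
  (l' < l ∧ l < l' + 11 * h') ∨ (l' < s ∧ s < l' + 11 * h') ∨
    (l' < l + 11 * h ∧ l + 11 * h < l' + 11 * h')

instance (l h s l' h' : ℕ) : Decidable (Brk l h s l' h') := by unfold Brk; infer_instance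

lemma gg_gram {l h s l' h' s' : ℕ} (hh : 0 < h) (h1 : l ≤ s) (h2 : s ≤ l + 11 * h) (hh' : 0 < h')
    (h1' : l' ≤ s') (h2' : s' ≤ l' + 11 * h') {Ω : Finset ℕ} (hΩ : Ico l' (l' + 11 * h') ⊆ Ω) :
    |∑ y ∈ Ω, gg l h s y * gg l' h' s' y| ≤ if Brk l h s l' h' then (11 * h' : ℝ) else 0 := by
  split_ifs with hb
  · rw [← sum_subset hΩ fun y _ hy => by rw [gg_zero h2' hy, mul_zero]]
    refine (abs_sum_le_sum_abs _ _).trans ((sum_le_card_nsmul _ _ 1 fun y _ => ?_).trans ?_)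
    · rw [abs_mul]
      exact mul_le_one₀ (gg_abs hh h1 h2 y) (abs_nonneg _) (gg_abs hh' h1' h2' y)
    · simp
  · have e : ∀ y ∈ Ico l' (l' + 11 * h'), gg l h s y = gg l h s l' := by
      intro y hy
      have a1 : y ∈ Ico l s ↔ l' ∈ Ico l s := by
        simp only [Brk, mem_Ico] at hb hy ⊢
        omega
      have a2 : y ∈ Ico l (l + 11 * h) ↔ l' ∈ Ico l (l + 11 * h) := by
        simp only [Brk, mem_Ico] at hb hy ⊢
        omega
      simp only [gg, a1, a2]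
    rw [gg_pair h2' hΩ, sum_congr rfl e,
      sum_congr rfl fun y hy => e y (Ico_subset_Ico_right h2' hy)]
    simp only [sum_const, Nat.card_Ico, nsmul_eq_mul, Nat.cast_sub h1', add_tsub_cancel_left]
    have e3 : (0 : ℝ) < h' := by exact_mod_cast hh'
    rw [abs_nonpos_iff]
    push_cast
    field_simp
    ring

lemma cnt1 (b : ℕ) {h : ℕ} (hh : 0 < h) (S : Finset ℕ) :
    (S.filter fun κ => κ * h < b ∧ b < κ * h + 11 * h).card ≤ 11 := by
  refine (card_le_card (t := Icc (b / h - 10) (b / h)) fun κ hκ => ?_).trans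
    (by rw [Nat.card_Icc]; omega)
  rw [mem_filter] at hκ
  have a1 : κ ≤ b / h := (Nat.le_div_iff_mul_le hh).2 hκ.2.1.le
  have a2 : b / h < κ + 11 := (Nat.div_lt_iff_lt_mul hh).2 (by rw [add_mul]; exact hκ.2.2)
  rw [mem_Icc]
  omega

lemma cnt2 (l h s : ℕ) {h' : ℕ} (hh : 0 < h') (S : Finset ℕ) :
    (S.filter fun κ => Brk l h s (κ * h') h').card ≤ 33 := by
  unfold Brk
  rw [filter_or, filter_or]
  have a1 := cnt1 l hh S
  have a2 := cnt1 s hh S
  have a3 := cnt1 (l + 11 * h) hh S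
  refine (card_union_le _ _).trans ((add_le_add_right (card_union_le _ _) _).trans ?_)
  omega

lemma cnt3 (l' : ℕ) {h h' : ℕ} (hh : 0 < h) (hle : h' ≤ h) (s : ℕ → ℕ)
    (hs : ∀ κ, κ * h ≤ s κ ∧ s κ ≤ κ * h + 11 * h) (S : Finset ℕ) :
    (S.filter fun κ => Brk (κ * h) h (s κ) l' h').card ≤ 33 := by
  refine (card_le_card (t := Icc (l' / h - 10) (l' / h + 11)) fun κ hκ => ?_).trans
    (by rw [Nat.card_Icc]; omega)
  rw [mem_filter] at hκ
  have b := hκ.2
  have c := hs κ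
  unfold Brk at b
  have a1 : κ ≤ (l' + 11 * h) / h := (Nat.le_div_iff_mul_le hh).2 (by omega)
  rw [Nat.add_mul_div_right _ _ hh] at a1
  have a2 : l' / h < κ + 11 := (Nat.div_lt_iff_lt_mul hh).2 (by rw [add_mul]; omega)
  rw [mem_Icc]
  omega

lemma geo (d n : ℕ) :
    ∑ e ∈ range n, (if e ≤ d then (4 : ℝ) ^ e / 4 ^ d else 4 ^ d / 4 ^ e) ≤ 5 / 2 := by
  have key : ∑ e ∈ range n, (if e ≤ d then (4 : ℝ) ^ e / 4 ^ d else 4 ^ d / 4 ^ e) ≤
      if n ≤ d + 1 then (4 : ℝ) ^ n / (2 * 4 ^ d) else 5 / 2 - 2 * (4 ^ d / 4 ^ n) := by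
    induction n with
    | zero => simp
    | succ n ih =>
      rw [sum_range_succ]
      have p1 : (0 : ℝ) < 4 ^ d := by positivity
      have p2 : (0 : ℝ) < 4 ^ n := by positivity
      rcases lt_trichotomy n (d + 1) with h | h | h
      · rw [if_pos (by omega)] at ih
        rw [if_pos (by omega : n ≤ d), if_pos (by omega : n + 1 ≤ d + 1)]
        have e : (4 : ℝ) ^ (n + 1) / (2 * 4 ^ d) = 2 * (4 ^ n / 4 ^ d) := by
          rw [pow_succ]; field_simp; ring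
        have e' : (4 : ℝ) ^ n / (2 * 4 ^ d) = (1 / 2) * (4 ^ n / 4 ^ d) := by field_simp
        have : (0 : ℝ) < 4 ^ n / 4 ^ d := by positivity
        rw [e]
        linarith
      · subst h
        rw [if_pos le_rfl] at ih
        rw [if_neg (by omega : ¬ d + 1 ≤ d), if_neg (by omega : ¬ d + 1 + 1 ≤ d + 1)]
        have e : (4 : ℝ) ^ (d + 1) / (2 * 4 ^ d) = 2 := by rw [pow_succ]; field_simp; ring
        have e1 : (4 : ℝ) ^ d / 4 ^ (d + 1) = 1 / 4 := by rw [pow_succ]; field_simp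
        have e2 : (4 : ℝ) ^ d / 4 ^ (d + 1 + 1) = 1 / 16 := by
          rw [pow_succ, pow_succ]; field_simp; ring
        rw [e1, e2]
        linarith
      · rw [if_neg (by omega)] at ih
        rw [if_neg (by omega : ¬ n ≤ d), if_neg (by omega : ¬ n + 1 ≤ d + 1)]
        have e : (4 : ℝ) ^ d / 4 ^ (n + 1) = (1 / 4) * (4 ^ d / 4 ^ n) := by
          rw [pow_succ]; field_simp
        have : (0 : ℝ) < 4 ^ d / 4 ^ n := by positivity
        rw [e]
        linarith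
  refine key.trans ?_
  split_ifs with h
  · have p1 : (0 : ℝ) < 4 ^ d := by positivity
    have : (4 : ℝ) ^ n ≤ 4 ^ (d + 1) := pow_le_pow_right₀ (by norm_num) h
    rw [div_le_iff₀ (by positivity)]
    rw [pow_succ] at this
    linarith
  · have : (0 : ℝ) < 4 ^ d / 4 ^ n := by positivity
    linarith

/-- The normalised function of the node `P = (level, position)`. -/
noncomputable def gn (sel : ℕ × ℕ → ℕ) (P : ℕ × ℕ) (y : ℕ) : ℝ :=
  gg (P.2 * 16 ^ P.1) (16 ^ P.1) (sel P) y / 4 ^ P.1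

/-- The selected point lies in the closed neighbourhood of the node. -/
def Sel (sel : ℕ × ℕ → ℕ) : Prop :=
  ∀ P : ℕ × ℕ, P.2 * 16 ^ P.1 ≤ sel P ∧ sel P ≤ P.2 * 16 ^ P.1 + 11 * 16 ^ P.1

/-- The neighbourhoods of the nodes lie in `Ω`. -/
def Inside (nd : Finset (ℕ × ℕ)) (Ω : Finset ℕ) : Prop :=
  ∀ P ∈ nd, Ico (P.2 * 16 ^ P.1) (P.2 * 16 ^ P.1 + 11 * 16 ^ P.1) ⊆ Ω

lemma pow16 (d : ℕ) : (16 : ℝ) ^ d = 4 ^ d * 4 ^ d := by rw [← mul_pow]; norm_num

lemma gn_gram {sel : ℕ × ℕ → ℕ} (hs : Sel sel) {Ω : Finset ℕ} (P Q : ℕ × ℕ)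
    (hΩ : Ico (Q.2 * 16 ^ Q.1) (Q.2 * 16 ^ Q.1 + 11 * 16 ^ Q.1) ⊆ Ω) :
    |∑ y ∈ Ω, gn sel P y * gn sel Q y| ≤
      if Brk (P.2 * 16 ^ P.1) (16 ^ P.1) (sel P) (Q.2 * 16 ^ Q.1) (16 ^ Q.1) then
        (11 * (4 ^ Q.1 / 4 ^ P.1) : ℝ) else 0 := by
  have h := gg_gram (pow_pos (by norm_num) P.1) (hs P).1 (hs P).2 (pow_pos (by norm_num) Q.1)
    (hs Q).1 (hs Q).2 hΩ
  simp only [gn, div_mul_div_comm, ← sum_div]
  rw [abs_div, abs_of_pos (by positivity : (0 : ℝ) < 4 ^ P.1 * 4 ^ Q.1),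
    div_le_iff₀ (by positivity)]
  refine h.trans (le_of_eq ?_)
  split_ifs
  · push_cast
    rw [pow16]
    field_simp
  · simp

lemma gn_row {sel : ℕ × ℕ → ℕ} (hs : Sel sel) {nd : Finset (ℕ × ℕ)} {Ω : Finset ℕ}
    (hΩ : Inside nd Ω) {P : ℕ × ℕ} (hP : P ∈ nd) :
    ∑ Q ∈ nd, |∑ y ∈ Ω, gn sel P y * gn sel Q y| ≤ 1024 := by
  set n := nd.sup Prod.fst + 1
  set S := nd.image Prod.snd
  let b : ℕ × ℕ → ℝ := fun Q => if Q.1 ≤ P.1 then
      (if Brk (P.2 * 16 ^ P.1) (16 ^ P.1) (sel P) (Q.2 * 16 ^ Q.1) (16 ^ Q.1) then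
        (11 * (4 ^ Q.1 / 4 ^ P.1) : ℝ) else 0) else
      (if Brk (Q.2 * 16 ^ Q.1) (16 ^ Q.1) (sel Q) (P.2 * 16 ^ P.1) (16 ^ P.1) then
        (11 * (4 ^ P.1 / 4 ^ Q.1) : ℝ) else 0)
  have h1 : ∀ Q ∈ nd, |∑ y ∈ Ω, gn sel P y * gn sel Q y| ≤ b Q := by
    intro Q hQ
    simp only [b]
    by_cases h : Q.1 ≤ P.1
    · rw [if_pos h]
      exact gn_gram hs P Q (hΩ Q hQ)
    · rw [if_neg h, sum_congr rfl fun y _ => mul_comm _ _]
      exact gn_gram hs Q P (hΩ P hP)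
  have h2 : ∑ Q ∈ nd, b Q ≤ ∑ Q ∈ range n ×ˢ S, b Q := by
    refine sum_le_sum_of_subset_of_nonneg (fun Q hQ => ?_) fun Q _ _ => ?_
    · exact mem_product.2 ⟨mem_range.2 (Nat.lt_succ_of_le (le_sup (f := Prod.fst) hQ)),
        mem_image_of_mem _ hQ⟩
    · simp only [b]
      split_ifs <;> positivity
  have h3 : ∀ e ∈ range n, ∑ κ ∈ S, b (e, κ) ≤
      363 * (if e ≤ P.1 then (4 : ℝ) ^ e / 4 ^ P.1 else 4 ^ P.1 / 4 ^ e) := by
    intro e _
    simp only [b]
    by_cases h : e ≤ P.1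
    · simp only [if_pos h]
      rw [← sum_filter, sum_const, nsmul_eq_mul]
      have c : ((S.filter fun κ => Brk (P.2 * 16 ^ P.1) (16 ^ P.1) (sel P) (κ * 16 ^ e)
          (16 ^ e)).card : ℝ) ≤ 33 := by
        exact_mod_cast cnt2 _ _ _ (pow_pos (by norm_num) e) S
      have : (0 : ℝ) < 4 ^ e / 4 ^ P.1 := by positivity
      nlinarith
    · simp only [if_neg h]
      rw [← sum_filter, sum_const, nsmul_eq_mul]
      have c : ((S.filter fun κ => Brk (κ * 16 ^ e) (16 ^ e) (sel (e, κ)) (P.2 * 16 ^ P.1)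
          (16 ^ P.1)).card : ℝ) ≤ 33 := by
        exact_mod_cast cnt3 _ (pow_pos (by norm_num) e)
          (Nat.pow_le_pow_right (by norm_num) (by omega)) (fun κ => sel (e, κ))
          (fun κ => hs (e, κ)) S
      have : (0 : ℝ) < 4 ^ P.1 / 4 ^ e := by positivity
      nlinarith
  have h4 := sum_le_sum h3
  rw [← mul_sum, ← sum_product (f := b)] at h4
  have h5 := geo P.1 n
  have h6 := sum_le_sum h1
  linarith

theorem bessel {sel : ℕ × ℕ → ℕ} (hs : Sel sel) {nd : Finset (ℕ × ℕ)} {Ω : Finset ℕ}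
    (hΩ : Inside nd Ω) : Bdd nd Ω (gn sel) 32 := by
  intro a q
  have h1 : ∑ y ∈ Ω, (∑ P ∈ nd, a P * gn sel P y) ^ 2 ≤ 1024 * ∑ P ∈ nd, a P ^ 2 := by
    have e : ∑ y ∈ Ω, (∑ P ∈ nd, a P * gn sel P y) ^ 2 =
        ∑ P ∈ nd, ∑ Q ∈ nd, a P * a Q * ∑ y ∈ Ω, gn sel P y * gn sel Q y := by
      simp only [sq, sum_mul_sum]
      simp only [mul_sum]
      rw [sum_comm]
      refine sum_congr rfl fun P _ => ?_
      rw [sum_comm]
      exact sum_congr rfl fun Q _ => sum_congr rfl fun y _ => by ring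
    set G : ℕ × ℕ → ℕ × ℕ → ℝ := fun P Q => ∑ y ∈ Ω, gn sel P y * gn sel Q y with hG
    have hsym : ∀ P Q, G P Q = G Q P := fun P Q => sum_congr rfl fun y _ => mul_comm _ _
    have h2 : ∀ P Q, a P * a Q * G P Q ≤ a P ^ 2 / 2 * |G P Q| + a Q ^ 2 / 2 * |G Q P| := by
      intro P Q
      rw [hsym Q P]
      have b1 : a P * a Q * G P Q ≤ |a P * a Q| * |G P Q| := by
        rw [← abs_mul]; exact le_abs_self _
      have b2 : |a P * a Q| ≤ a P ^ 2 / 2 + a Q ^ 2 / 2 := by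
        rw [abs_le]
        constructor <;> nlinarith [sq_nonneg (a P + a Q), sq_nonneg (a P - a Q)]
      nlinarith [mul_le_mul_of_nonneg_right b2 (abs_nonneg (G P Q))]
    have h3 : ∑ P ∈ nd, ∑ Q ∈ nd, a P ^ 2 / 2 * |G P Q| ≤ ∑ P ∈ nd, a P ^ 2 / 2 * 1024 := by
      refine sum_le_sum fun P hP => ?_
      rw [← mul_sum]
      exact mul_le_mul_of_nonneg_left (gn_row hs hΩ hP) (by positivity)
    have h4 := sum_le_sum fun P (_ : P ∈ nd) => sum_le_sum fun Q (_ : Q ∈ nd) => h2 P Q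
    simp only [sum_add_distrib] at h4
    rw [sum_comm (f := fun P Q => a Q ^ 2 / 2 * |G Q P|)] at h4
    rw [← sum_mul, ← sum_div] at h3
    rw [e]
    linarith
  have e2 : ∑ P ∈ nd, ∑ y ∈ Ω, gn sel P y * a P * q y =
      ∑ y ∈ Ω, (∑ P ∈ nd, a P * gn sel P y) * q y := by
    rw [sum_comm]
    refine sum_congr rfl fun y _ => ?_
    rw [sum_mul]
    exact sum_congr rfl fun P _ => by ring
  have h5 : ∑ y ∈ Ω, 2 * ((∑ P ∈ nd, a P * gn sel P y) * q y) ≤
      ∑ y ∈ Ω, ((∑ P ∈ nd, a P * gn sel P y) ^ 2 / 32 + 32 * q y ^ 2) :=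
    sum_le_sum fun y _ => by nlinarith [sq_nonneg ((∑ P ∈ nd, a P * gn sel P y) - 32 * q y)]
  rw [← mul_sum, sum_add_distrib, ← sum_div, ← mul_sum] at h5
  rw [e2]
  linarith

/-- The matrix built from two Bessel families and signs. -/
lemma bessel2 {sel sel' : ℕ × ℕ → ℕ} (hs : Sel sel) (hs' : Sel sel') {nd : Finset (ℕ × ℕ)}
    {Ω : Finset ℕ} (hΩ : Inside nd Ω) (ε : ℕ × ℕ → ℝ) (hε : ∀ P, |ε P| ≤ 1) :
    Bdd Ω Ω (fun x y => ∑ P ∈ nd, ε P * gn sel P x * gn sel' P y) 1024 := by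
  intro p q
  have h1 := (bessel hs hΩ).analysis (by norm_num) p
  have h2 := (bessel hs' hΩ).analysis (by norm_num) q
  have e : ∑ x ∈ Ω, ∑ y ∈ Ω, (∑ P ∈ nd, ε P * gn sel P x * gn sel' P y) * p x * q y =
      ∑ P ∈ nd, ε P * ((∑ x ∈ Ω, gn sel P x * p x) * ∑ y ∈ Ω, gn sel' P y * q y) := by
    simp only [sum_mul_sum]
    simp only [mul_sum, sum_mul]
    rw [sum_comm (s := nd)]
    refine sum_congr rfl fun x _ => ?_
    rw [sum_comm (s := nd)]
    exact sum_congr rfl fun y _ => sum_congr rfl fun P _ => by ring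
  have h3 : ∑ P ∈ nd, 2 * (ε P * ((∑ x ∈ Ω, gn sel P x * p x) * ∑ y ∈ Ω, gn sel' P y * q y)) ≤
      ∑ P ∈ nd, ((∑ x ∈ Ω, gn sel P x * p x) ^ 2 + (∑ y ∈ Ω, gn sel' P y * q y) ^ 2) := by
    refine sum_le_sum fun P _ => ?_
    generalize ∑ x ∈ Ω, gn sel P x * p x = u
    generalize ∑ y ∈ Ω, gn sel' P y * q y = v
    have := abs_le.1 (hε P)
    nlinarith [mul_nonneg (sub_nonneg.2 this.2) (sq_nonneg (u + v)),
      mul_nonneg (show 0 ≤ 1 + ε P by linarith) (sq_nonneg (u - v))]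
  rw [← mul_sum, sum_add_distrib] at h3
  rw [e]
  linarith

end Pool.Agent.MP_24fbf1_an.Bi

end

-- part MP_24fbf1_an.Bi.Core
section

/-!
The multiscale estimate for the reciprocal kernel against the uniform vector.
-/

set_option autoImplicit false

open Finset

namespace Pool.Agent.MP_24fbf1_an.Bi

variable {N : ℝ} {ξ F : ℕ → ℝ} {K T : ℕ → ℕ → ℝ}

/-- The Taylor remainder summed over the part of the matrix near the node. -/
noncomputable def UU (K T : ℕ → ℕ → ℝ) (l h : ℕ) : ℝ :=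
  ∑ x ∈ Ico (l + 5 * h) (l + 6 * h), ∑ y ∈ Ico (l + 2 * h) (l + 9 * h),
    (1 / K x y - lam (cc K l h) (K x y)) * T x y

/-- The potential function. -/
noncomputable def VV (N : ℝ) (K T : ℕ → ℕ → ℝ) (l h : ℕ) : ℝ :=
  UU K T l h - 96 * N ^ 2 * h * |tt K l h|

lemma Ker.N1 (hK : Ker N ξ F K) : 1 ≤ N := (hK.one_le 0 0).trans (hK.le_N 0 0)

lemma mul_sum_le {s t : Finset ℕ} {k : ℕ → ℕ → ℝ} {M a : ℝ} (hk : Mul s t k M) (hM : 0 ≤ M)
    (hT : Bdd s t T 1) (ha : (s.card : ℝ) + t.card ≤ 2 * a) :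
    |∑ x ∈ s, ∑ y ∈ t, k x y * T x y| ≤ M * a := by
  refine (hk T 1 zero_le_one hT).ones.trans ?_
  nlinarith

lemma child {l g : ℕ} {φ : ℕ → ℝ} {φb W E : ℝ} (hK : Ker N ξ F K)
    (hL : Loc K l (16 * g) φ φb W E) (hg : 0 < g) (hT : ∀ s t, Bdd s t T 1) {l' : ℕ}
    (h1 : l + 75 * g ≤ l') (h2 : l' ≤ l + 90 * g) :
    ∑ x ∈ Ico (l' + 5 * g) (l' + 6 * g), ∑ y ∈ Ico (l + 2 * (16 * g)) (l + 9 * (16 * g)),
      (1 / K x y - lam (cc K l (16 * g)) (K x y)) * T x y ≤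
      UU K T l' g + 48 * N ^ 2 * g * |cc K l' g - cc K l (16 * g)| +
        25302528 * N ^ 2 * g * W ^ 2 := by
  have hc := hK.blk_mem (l + 16 * g) (l + 9 * (16 * g)) (g := 16 * g) (by omega)
  have hc' := hK.blk_mem (l' + g) (l' + 9 * g) hg
  have W0 := hL.W0
  have N1 := hK.N1
  change 1 ≤ cc K l (16 * g) ∧ cc K l (16 * g) ≤ N at hc
  change 1 ≤ cc K l' g ∧ cc K l' g ≤ N at hc'
  have pt := fun x y m => pt_bound hK hL hg (x := x) (y := y) (m := m)
  set c := cc K l (16 * g)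
  set c' := cc K l' g with hc''
  have mL : Mul (Ico (l' + 5 * g) (l' + 6 * g)) (Ico (l + 2 * (16 * g)) (l' + 2 * g))
      (fun x y => 1 / K x y - lam c (K x y)) (48 * N ^ 2 * (68 * W) ^ 2) := by
    refine block (a := fun x => K (l' + 3 * g) x) (σ := fun x => ξ x - ξ (l' + 3 * g))
      (b := fun y => K y (l' + 3 * g)) (τ := fun y => ξ (l' + 3 * g) - ξ y)
      (hK.mul _ _ id id) (fun x hx => ?_) (fun y hy => ?_) hc.1 hc.2 (by positivity)
      fun x hx y hy => ?_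
    · rw [mem_Ico] at hx
      exact ⟨hK.one_le _ _, hK.le_N _ _, pt _ _ (l' + 3 * g) (by omega) le_rfl (by omega) (by omega),
        sub_nonneg.2 (hK.mono (by omega))⟩
    · rw [mem_Ico] at hy
      exact ⟨hK.one_le _ _, hK.le_N _ _, pt _ _ (l' + 2 * g) (by omega) (by omega) (by omega)
        (by omega), sub_nonneg.2 (hK.mono (by omega))⟩
    · rw [mem_Ico] at hx hy
      have e1 := hK.diff y x
      have e2 := hK.diff (l' + 3 * g) x
      have e3 := hK.diff y (l' + 3 * g)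
      have e4 := hK.mono (show l' + 3 * g ≤ x by omega)
      have e5 := hK.mono (show y ≤ l' + 3 * g by omega)
      refine ⟨by rw [hK.symm x y]; linarith, fun h0 => ?_⟩
      rw [hK.diag x y (by linarith), hK.diag _ x (by linarith)]
  have mR : Mul (Ico (l' + 5 * g) (l' + 6 * g)) (Ico (l' + 9 * g) (l + 9 * (16 * g)))
      (fun x y => 1 / K x y - lam c (K x y)) (48 * N ^ 2 * (68 * W) ^ 2) := by
    refine block (a := fun x => K x (l' + 7 * g)) (σ := fun x => ξ (l' + 7 * g) - ξ x)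
      (b := fun y => K (l' + 7 * g) y) (τ := fun y => ξ y - ξ (l' + 7 * g))
      (hK.mul _ _ id id) (fun x hx => ?_) (fun y hy => ?_) hc.1 hc.2 (by positivity)
      fun x hx y hy => ?_
    · rw [mem_Ico] at hx
      exact ⟨hK.one_le _ _, hK.le_N _ _, pt _ _ (l' + 6 * g) (by omega) (by omega) (by omega)
        (by omega), sub_nonneg.2 (hK.mono (by omega))⟩
    · rw [mem_Ico] at hy
      exact ⟨hK.one_le _ _, hK.le_N _ _, pt _ _ (l' + 7 * g) (by omega) le_rfl (by omega) (by omega),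
        sub_nonneg.2 (hK.mono (by omega))⟩
    · rw [mem_Ico] at hx hy
      have e1 := hK.diff x y
      have e2 := hK.diff x (l' + 7 * g)
      have e3 := hK.diff (l' + 7 * g) y
      have e4 := hK.mono (show x ≤ l' + 7 * g by omega)
      have e5 := hK.mono (show l' + 7 * g ≤ y by omega)
      refine ⟨by linarith, fun h0 => ?_⟩
      rw [hK.diag x y (by linarith), hK.diag x _ (by linarith)]
  have mM : Mul (Ico (l' + 5 * g) (l' + 6 * g)) (Ico (l' + 2 * g) (l' + 9 * g))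
      (fun x y => lam c' (K x y) - lam c (K x y)) (12 * N ^ 2 * |c' - c|) :=
    mul_lam_sub (hK.mul _ _ id id) N1 hc.1 hc'.1
  have bL := mul_sum_le mL (by positivity) (hT _ _) (a := 57 * g) (by
    rw [Nat.card_Ico, Nat.card_Ico]
    have : l' + 6 * g - (l' + 5 * g) + (l' + 2 * g - (l + 2 * (16 * g))) ≤ 2 * (57 * g) := by omega
    exact_mod_cast this)
  have bR := mul_sum_le mR (by positivity) (hT _ _) (a := 57 * g) (by
    rw [Nat.card_Ico, Nat.card_Ico]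
    have : l' + 6 * g - (l' + 5 * g) + (l + 9 * (16 * g) - (l' + 9 * g)) ≤ 2 * (57 * g) := by omega
    exact_mod_cast this)
  have bM := mul_sum_le mM (by positivity) (hT _ _) (a := 4 * g) (by
    rw [Nat.card_Ico, Nat.card_Ico]
    have : l' + 6 * g - (l' + 5 * g) + (l' + 9 * g - (l' + 2 * g)) ≤ 2 * (4 * g) := by omega
    exact_mod_cast this)
  have e : ∀ x, ∑ y ∈ Ico (l + 2 * (16 * g)) (l + 9 * (16 * g)), (1 / K x y - lam c (K x y)) * T x y =
      ∑ y ∈ Ico (l + 2 * (16 * g)) (l' + 2 * g), (1 / K x y - lam c (K x y)) * T x y +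
      (∑ y ∈ Ico (l' + 2 * g) (l' + 9 * g), (1 / K x y - lam c' (K x y)) * T x y +
        ∑ y ∈ Ico (l' + 2 * g) (l' + 9 * g), (lam c' (K x y) - lam c (K x y)) * T x y) +
      ∑ y ∈ Ico (l' + 9 * g) (l + 9 * (16 * g)), (1 / K x y - lam c (K x y)) * T x y := by
    intro x
    rw [← sum_add_distrib, ← sum_Ico_consecutive _ (show l + 2 * (16 * g) ≤ l' + 9 * g by omega)
      (show l' + 9 * g ≤ l + 9 * (16 * g) by omega),
      ← sum_Ico_consecutive _ (show l + 2 * (16 * g) ≤ l' + 2 * g by omega)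
      (show l' + 2 * g ≤ l' + 9 * g by omega)]
    congr 2
    exact sum_congr rfl fun y _ => by ring
  simp only [e, sum_add_distrib]
  rw [UU, ← hc'']
  rw [abs_le] at bL bR bM
  nlinarith [bL.2, bR.2, bM.2]

lemma sum_Ico_blocks (f : ℕ → ℝ) (m g n : ℕ) : ∑ x ∈ Ico m (m + n * g), f x =
    ∑ i ∈ range n, ∑ x ∈ Ico (m + i * g) (m + i * g + g), f x := by
  induction n with
  | zero => simp
  | succ n ih =>
    rw [sum_range_succ, ← ih, sum_Ico_consecutive _ (by omega) (by omega)]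
    congr 2
    ring

lemma step {l g : ℕ} {φ : ℕ → ℝ} {φb W E : ℝ} (hK : Ker N ξ F K)
    (hL : Loc K l (16 * g) φ φb W E) (hg : 0 < g) (hT : ∀ s t, Bdd s t T 1) :
    VV N K T l (16 * g) ≤ ∑ i ∈ range 16, VV N K T (l + (75 + i) * g) g +
      26000000 * N ^ 2 * ((16 * g : ℕ) * W ^ 2 + (16 * g : ℕ) * E) := by
  obtain ⟨v1, v2⟩ := variation hK hL hg
  have g0 : (0 : ℝ) < g := by exact_mod_cast hg
  have E0 := hL.E0
  have h1 : ∀ i ∈ range 16, ∑ x ∈ Ico (l + 5 * (16 * g) + i * g) (l + 5 * (16 * g) + i * g + g),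
      ∑ y ∈ Ico (l + 2 * (16 * g)) (l + 9 * (16 * g)),
        (1 / K x y - lam (cc K l (16 * g)) (K x y)) * T x y ≤
      UU K T (l + (75 + i) * g) g + (48 * N ^ 2 * g * (|tt K l (16 * g)| + 915 * E) +
        25302528 * N ^ 2 * g * W ^ 2) := by
    intro i hi
    rw [mem_range] at hi
    have c1 : i * g ≤ 15 * g := Nat.mul_le_mul_right g (by omega)
    have e : (75 + i) * g = 75 * g + i * g := by ring
    have h2 := child hK hL hg hT (l' := l + (75 + i) * g) (by omega) (by omega)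
    rw [show l + (75 + i) * g + 5 * g = l + 5 * (16 * g) + i * g by omega,
      show l + (75 + i) * g + 6 * g = l + 5 * (16 * g) + i * g + g by omega] at h2
    have h3 := mul_le_mul_of_nonneg_left (v1 i hi) (show 0 ≤ 48 * N ^ 2 * g by positivity)
    linarith
  have h4 := sum_le_sum h1
  rw [← sum_Ico_blocks, show l + 5 * (16 * g) + 16 * g = l + 6 * (16 * g) by omega, ← UU,
    sum_add_distrib, sum_const, card_range, nsmul_eq_mul] at h4
  have h5 := mul_le_mul_of_nonneg_left v2 (show 0 ≤ 96 * N ^ 2 * g by positivity)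
  simp only [VV, sum_sub_distrib, ← mul_sum]
  push_cast at h4 ⊢
  have p1 : 0 ≤ N ^ 2 * g * E := by positivity
  have p2 : 0 ≤ N ^ 2 * g * W ^ 2 := by positivity
  nlinarith

lemma sum_gg_ext {l h s : ℕ} (h2 : s ≤ l + 11 * h) {Ω : Finset ℕ} (hΩ : Ico l (l + 11 * h) ⊆ Ω)
    (z : ℕ → ℝ) : ∑ y ∈ Ω, z y * gg l h s y = ∑ y ∈ Ico l (l + 11 * h), z y * gg l h s y := by
  rw [gg_pair h2 hΩ, gg_pair h2 Subset.rfl]

lemma exists_loc (hK : Ker N ξ F K) (l : ℕ) {h : ℕ} (hh : 0 < h) :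
    ∃ x s s₁ s₂ : ℕ, (l ≤ s ∧ s ≤ l + 11 * h) ∧ (l ≤ s₁ ∧ s₁ ≤ l + 11 * h) ∧
      (l ≤ s₂ ∧ s₂ ≤ l + 11 * h) ∧ ∃ (φ : ℕ → ℝ) (φb : ℝ), Loc K l h φ φb
        (2 * |∑ y ∈ Ico l (l + 11 * h), K x y * gg l h s y| / h)
        (4 * |∑ x ∈ Ico l (l + 11 * h),
          (∑ y ∈ Ico l (l + 11 * h), K x y * gg l h s₂ y) * gg l h s₁ x| / h ^ 2) := by
  have g0 : (0 : ℝ) < h := by exact_mod_cast hh
  set φ : ℕ → ℝ := fun x => (∑ y ∈ Ico l (l + 11 * h), K x y) / (11 * h) with hφ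
  set φb : ℝ := (∑ x ∈ Ico l (l + 11 * h), φ x) / (11 * h) with hφb
  have e1 : ∀ x s, l ≤ s → s ≤ l + 11 * h → ∑ y ∈ Ico l (l + 11 * h), K x y * gg l h s y =
      ∑ y ∈ Ico l s, (K x y - φ x) := by
    intro x s a b
    rw [gg_pair b Subset.rfl]
    simp only [sum_sub_distrib, sum_const, Nat.card_Ico, nsmul_eq_mul, Nat.cast_sub a, hφ]
    ring
  have e2 : ∀ s s', l ≤ s → s ≤ l + 11 * h → l ≤ s' → s' ≤ l + 11 * h →
      ∑ x ∈ Ico l (l + 11 * h), (∑ y ∈ Ico l (l + 11 * h), K x y * gg l h s' y) * gg l h s x =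
      ∑ x ∈ Ico l s, ∑ y ∈ Ico l s', (K x y - φ x - φ y + φb) := by
    intro s s' a b a' b'
    rw [gg_pair b Subset.rfl]
    simp only [e1 _ s' a' b']
    have e3 : ∑ x ∈ Ico l (l + 11 * h), ∑ y ∈ Ico l s', K x y = 11 * h * ∑ y ∈ Ico l s', φ y := by
      rw [sum_comm, mul_sum]
      refine sum_congr rfl fun y _ => ?_
      simp only [hφ, hK.symm y]
      field_simp
    have e4 : ∑ x ∈ Ico l (l + 11 * h), φ x = 11 * h * φb := by
      rw [hφb]
      field_simp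
    simp only [sum_sub_distrib, sum_add_distrib, sum_const, Nat.card_Ico, nsmul_eq_mul,
      Nat.cast_sub a, Nat.cast_sub a', ← mul_sum, e3, e4]
    field_simp
    ring
  obtain ⟨⟨x, s⟩, hxs, hm⟩ := exists_max_image (Ico l (l + 11 * h) ×ˢ Icc l (l + 11 * h))
    (fun q => |∑ y ∈ Ico l q.2, (K q.1 y - φ q.1)|) ⟨(l, l), by simp; omega⟩
  obtain ⟨⟨s₁, s₂⟩, hss, hm'⟩ := exists_max_image (Icc l (l + 11 * h) ×ˢ Icc l (l + 11 * h))
    (fun q => |∑ x ∈ Ico l q.1, ∑ y ∈ Ico l q.2, (K x y - φ x - φ y + φb)|) ⟨(l, l), by simp⟩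
  simp only [mem_product, mem_Ico, mem_Icc, Prod.forall] at hxs hss hm hm'
  refine ⟨x, s, s₁, s₂, hxs.2, hss.1, hss.2, φ, φb, by positivity, by positivity, ?_, ?_⟩
  · intro x' m r a1 a2 a3 a4 a5
    rw [e1 x s hxs.2.1 hxs.2.2, div_mul_cancel₀ _ g0.ne']
    have b1 := hm x' m ⟨⟨a1, a2⟩, a3, by omega⟩
    have b2 := hm x' r ⟨⟨a1, a2⟩, by omega, a5⟩
    rw [← sum_Ico_consecutive _ a3 a4] at b2
    rw [abs_le] at b1 b2 ⊢
    constructor <;> linarith [b1.1, b1.2, b2.1, b2.2]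
  · intro m r m' r' a1 a2 a3 a4 a5 a6
    rw [e2 s₁ s₂ hss.1.1 hss.1.2 hss.2.1 hss.2.2, div_mul_cancel₀ _ (by positivity)]
    have b1 := hm' m m' ⟨⟨a1, by omega⟩, a4, by omega⟩
    have b2 := hm' r m' ⟨⟨by omega, a3⟩, a4, by omega⟩
    have b3 := hm' m r' ⟨⟨a1, by omega⟩, by omega, a6⟩
    have b4 := hm' r r' ⟨⟨by omega, a3⟩, by omega, a6⟩
    simp only [← sum_Ico_consecutive _ a1 a2, ← sum_Ico_consecutive _ a4 a5,
      sum_add_distrib (s := Ico l m), sum_add_distrib (s := Ico m r)] at b2 b3 b4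
    rw [abs_le] at b1 b2 b3 b4 ⊢
    constructor <;> linarith [b1.1, b1.2, b2.1, b2.2, b3.1, b3.2, b4.1, b4.2]

lemma exists_WE (hK : Ker N ξ F K) {nd : Finset (ℕ × ℕ)} {Ω : Finset ℕ} (hΩ : Inside nd Ω) :
    ∃ W E : ℕ × ℕ → ℝ, (∀ P : ℕ × ℕ, ∃ (φ : ℕ → ℝ) (φb : ℝ),
      Loc K (P.2 * 16 ^ P.1) (16 ^ P.1) φ φb (W P) (E P)) ∧
      ∑ P ∈ nd, (((16 ^ P.1 : ℕ) : ℝ) * W P ^ 2 + ((16 ^ P.1 : ℕ) : ℝ) * E P) ≤
        8192 * N ^ 2 * Ω.card := by
  have N1 := hK.N1
  choose x s s₁ s₂ hs hs₁ hs₂ hL using fun P : ℕ × ℕ =>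
    exists_loc hK (P.2 * 16 ^ P.1) (h := 16 ^ P.1) (pow_pos (by norm_num) _)
  refine ⟨_, _, hL, ?_⟩
  have b1 := (hK.mul nd Ω x id _ _ (by norm_num) (bessel (sel := s) hs hΩ)).analysis
    (by positivity) fun _ => 1
  simp only [mul_one, one_pow, sum_const, nsmul_eq_mul, id] at b1
  set D : ℕ × ℕ → ℝ := fun P => ∑ x ∈ Ico (P.2 * 16 ^ P.1) (P.2 * 16 ^ P.1 + 11 * 16 ^ P.1),
    (∑ y ∈ Ico (P.2 * 16 ^ P.1) (P.2 * 16 ^ P.1 + 11 * 16 ^ P.1),
      K x y * gg (P.2 * 16 ^ P.1) (16 ^ P.1) (s₂ P) y) * gg (P.2 * 16 ^ P.1) (16 ^ P.1) (s₁ P) x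
    with hD
  have b2 := (hK.mul Ω Ω id id _ _ (by norm_num) (bessel2 (sel := s₁) (sel' := s₂) hs₁ hs₂ hΩ
    (fun P => if 0 ≤ D P then 1 else -1) fun P => by split_ifs <;> simp)).ones
  have e2 : ∑ a ∈ Ω, ∑ b ∈ Ω, K (id a) (id b) *
      ∑ P ∈ nd, (if 0 ≤ D P then 1 else -1) * gn s₁ P a * gn s₂ P b =
      ∑ P ∈ nd, |D P| / 16 ^ P.1 := by
    simp only [mul_sum, id]
    rw [sum_congr rfl fun a _ => sum_comm, sum_comm]
    refine sum_congr rfl fun P hP => ?_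
    have e3 : D P = ∑ a ∈ Ω, (∑ b ∈ Ω, K a b * gg (P.2 * 16 ^ P.1) (16 ^ P.1) (s₂ P) b) *
        gg (P.2 * 16 ^ P.1) (16 ^ P.1) (s₁ P) a := by
      rw [sum_gg_ext (hs₁ P).2 (hΩ P hP)]
      simp only [sum_gg_ext (hs₂ P).2 (hΩ P hP), hD]
    have e4 : |D P| = (if 0 ≤ D P then 1 else -1) * D P := by
      split_ifs with h0
      · rw [abs_of_nonneg h0, one_mul]
      · rw [abs_of_neg (not_le.1 h0), neg_one_mul]
    rw [e4]
    generalize (if 0 ≤ D P then (1 : ℝ) else -1) = ε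
    rw [e3]
    simp only [gn, mul_sum, sum_mul, sum_div, pow16]
    refine sum_congr rfl fun a _ => sum_congr rfl fun b _ => ?_
    field_simp
  rw [e2] at b2
  have e5 : ∀ P ∈ nd, ((16 ^ P.1 : ℕ) : ℝ) *
      (2 * |∑ y ∈ Ico (P.2 * 16 ^ P.1) (P.2 * 16 ^ P.1 + 11 * 16 ^ P.1),
        K (x P) y * gg (P.2 * 16 ^ P.1) (16 ^ P.1) (s P) y| / ((16 ^ P.1 : ℕ) : ℝ)) ^ 2 +
      ((16 ^ P.1 : ℕ) : ℝ) * (4 * |D P| / ((16 ^ P.1 : ℕ) : ℝ) ^ 2) =
      4 * (∑ y ∈ Ω, K (x P) y * gn s P y) ^ 2 + 4 * (|D P| / 16 ^ P.1) := by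
    intro P hP
    rw [← sum_gg_ext (hs P).2 (hΩ P hP)]
    simp only [gn, ← mul_div_assoc, ← sum_div, div_pow, mul_pow, sq_abs]
    push_cast
    rw [pow16]
    field_simp
    ring
  rw [sum_congr rfl e5, sum_add_distrib, ← mul_sum, ← mul_sum]
  have c0 : (0 : ℝ) ≤ Ω.card := Nat.cast_nonneg _
  have c1 : N * Ω.card ≤ N ^ 2 * Ω.card := mul_le_mul_of_nonneg_right (by nlinarith) c0
  nlinarith [le_abs_self (∑ P ∈ nd, |D P| / 16 ^ P.1)]

lemma UU_one (hK : Ker N ξ F K) (hT : ∀ s t, Bdd s t T 1) (l : ℕ) : UU K T l 1 ≤ 35 * N ^ 2 := by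
  have N1 := hK.N1
  have b1 := mul_sum_le (mul_lam (s := Ico (l + 5 * 1) (l + 6 * 1)) (t := Ico (l + 2 * 1) (l + 9 * 1))
    (hK.mul _ _ id id) N1 (hK.blk_mem (l + 1) (l + 9 * 1) one_pos).1) (by positivity) (hT _ _)
    (a := 4) (by simp; norm_num)
  have b2 : ∀ x y, 1 / K x y * T x y ≤ 1 := by
    intro x y
    have c1 := (hT {x} {y}).ones
    simp only [sum_singleton, card_singleton, Nat.cast_one] at c1
    have c2 := hK.one_le x y
    rw [one_div, inv_mul_le_iff₀ (by linarith)]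
    linarith [le_abs_self (T x y)]
  have b3 := sum_le_sum fun x (_ : x ∈ Ico (l + 5 * 1) (l + 6 * 1)) =>
    sum_le_sum fun y (_ : y ∈ Ico (l + 2 * 1) (l + 9 * 1)) => b2 x y
  have b4 : ∑ _x ∈ Ico (l + 5 * 1) (l + 6 * 1), ∑ _y ∈ Ico (l + 2 * 1) (l + 9 * 1), (1 : ℝ) = 7 := by
    simp
  rw [b4] at b3
  simp only [UU, sub_mul, sum_sub_distrib, cc]
  simp only [id] at b1
  rw [abs_le] at b1
  nlinarith [b1.1]

theorem core (hK : Ker N ξ F K) (hT : ∀ s t, Bdd s t T 1) (J : ℕ) :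
    ∑ x ∈ Ico (5 * 16 ^ J) (6 * 16 ^ J), ∑ y ∈ Ico (2 * 16 ^ J) (9 * 16 ^ J), 1 / K x y * T x y ≤
      3000000000000 * N ^ 4 * 16 ^ J := by
  have N1 := hK.N1
  set lev : ℕ → Finset ℕ := fun d =>
    Ico (5 * (16 ^ (J - d) - 1)) (5 * (16 ^ (J - d) - 1) + 16 ^ (J - d)) with hlev
  set nd : Finset (ℕ × ℕ) := (range (J + 1)).biUnion fun d => (lev d).image fun κ => (d, κ)
  have hnd : ∀ P : ℕ × ℕ, P ∈ nd ↔ P.1 ∈ range (J + 1) ∧ P.2 ∈ lev P.1 := by
    rintro ⟨d, κ⟩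
    simp only [nd, mem_biUnion, mem_image, Prod.mk.injEq]
    constructor
    · rintro ⟨d', h1, κ', h2, rfl, rfl⟩
      exact ⟨h1, h2⟩
    · rintro ⟨h1, h2⟩
      exact ⟨d, h1, κ, h2, rfl, rfl⟩
  have hΩ : Inside nd (range (11 * 16 ^ J)) := by
    intro P hP y hy
    rw [hnd, mem_range, hlev, mem_Ico] at hP
    rw [mem_Ico] at hy
    have e : 16 ^ J = 16 ^ (J - P.1) * 16 ^ P.1 := by rw [← pow_add]; congr 1; omega
    have p : 0 < 16 ^ (J - P.1) := pow_pos (by norm_num) _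
    have c : (P.2 + 11) * 16 ^ P.1 ≤ (11 * 16 ^ (J - P.1)) * 16 ^ P.1 :=
      Nat.mul_le_mul_right _ (by omega)
    rw [mem_range, e, ← mul_assoc]
    rw [add_mul] at c
    omega
  obtain ⟨W, E, hL, hS⟩ := exists_WE hK hΩ
  set err : ℕ → ℕ → ℝ := fun d κ =>
    ((16 ^ d : ℕ) : ℝ) * W (d, κ) ^ 2 + ((16 ^ d : ℕ) : ℝ) * E (d, κ) with herr
  have err0 : ∀ d κ, 0 ≤ err d κ := fun d κ => by
    obtain ⟨φ, φb, h⟩ := hL (d, κ)
    have := h.E0
    simp only [herr]
    positivity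
  rw [show (∑ P ∈ nd, (((16 ^ P.1 : ℕ) : ℝ) * W P ^ 2 + ((16 ^ P.1 : ℕ) : ℝ) * E P)) =
    ∑ d ∈ range (J + 1), ∑ κ ∈ lev d, err d κ from sum_finset_product' nd _ lev hnd (f := err),
    card_range] at hS
  have ind : ∀ d, d ≤ J → ∑ κ ∈ lev d, VV N K T (κ * 16 ^ d) (16 ^ d) ≤
      35 * N ^ 2 * 16 ^ J + 26000000 * N ^ 2 * ∑ e ∈ range (d + 1), ∑ κ ∈ lev e, err e κ := by
    intro d
    induction d with
    | zero =>
      intro _
      have h1 : ∀ κ ∈ lev 0, VV N K T (κ * 16 ^ 0) (16 ^ 0) ≤ 35 * N ^ 2 := by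
        intro κ _
        have := UU_one hK hT (κ * 1)
        have h2 : 0 ≤ 96 * N ^ 2 * ((1 : ℕ) : ℝ) * |tt K (κ * 1) 1| := by positivity
        rw [pow_zero, VV]
        linarith
      have h2 := sum_le_card_nsmul _ _ _ h1
      have h3 : 0 ≤ ∑ e ∈ range (0 + 1), ∑ κ ∈ lev e, err e κ :=
        sum_nonneg fun e _ => sum_nonneg fun κ _ => err0 e κ
      rw [show (lev 0).card = 16 ^ J by simp [hlev], nsmul_eq_mul, Nat.cast_pow,
        Nat.cast_ofNat] at h2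
      nlinarith [mul_nonneg (sq_nonneg N) h3]
    | succ d ih =>
      intro hd
      have h1 : ∀ κ ∈ lev (d + 1), VV N K T (κ * 16 ^ (d + 1)) (16 ^ (d + 1)) ≤
          ∑ i ∈ range 16, VV N K T ((16 * κ + 75 + i) * 16 ^ d) (16 ^ d) +
            26000000 * N ^ 2 * err (d + 1) κ := by
        intro κ _
        obtain ⟨φ, φb, h⟩ := hL (d + 1, κ)
        simp only [herr]
        rw [pow_succ'] at h ⊢
        have := step hK h (pow_pos (by norm_num) d) hT
        rw [sum_congr rfl fun i _ => show VV N K T ((16 * κ + 75 + i) * 16 ^ d) (16 ^ d) =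
          VV N K T (κ * (16 * 16 ^ d) + (75 + i) * 16 ^ d) (16 ^ d) by congr 1; ring]
        exact this
      have h2 := sum_le_sum h1
      have h3 : ∑ κ ∈ lev (d + 1), ∑ i ∈ range 16,
          VV N K T ((16 * κ + 75 + i) * 16 ^ d) (16 ^ d) =
          ∑ κ ∈ lev d, VV N K T (κ * 16 ^ d) (16 ^ d) := by
        have e : 16 ^ (J - d) = 16 ^ (J - (d + 1)) * 16 := by rw [← pow_succ]; congr 1; omega
        have p : 0 < 16 ^ (J - (d + 1)) := pow_pos (by norm_num) _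
        simp only [hlev]
        rw [e]
        generalize 16 ^ (J - (d + 1)) = M at p
        rw [sum_Ico_blocks, sum_Ico_eq_sum_range, add_tsub_cancel_left]
        refine sum_congr rfl fun k _ => ?_
        rw [sum_Ico_eq_sum_range, add_tsub_cancel_left]
        refine sum_congr rfl fun i _ => ?_
        congr 2
        omega
      rw [sum_add_distrib, h3, ← mul_sum] at h2
      rw [sum_range_succ]
      have := ih (by omega)
      linarith
  have top := ind J le_rfl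
  have e : lev J = {0} := by simp [hlev]
  rw [e, sum_singleton, zero_mul, VV, UU] at top
  simp only [zero_add, sub_mul, sum_sub_distrib] at top
  have p : 0 < 16 ^ J := pow_pos (by norm_num) _
  have hc := hK.blk_mem (0 + 16 ^ J) (0 + 9 * 16 ^ J) p
  have hc' := hK.blk_mem (0 + 16 ^ J) (0 + 16 ^ J) p
  have b1 := mul_sum_le (mul_lam (s := Ico (5 * 16 ^ J) (6 * 16 ^ J))
    (t := Ico (2 * 16 ^ J) (9 * 16 ^ J)) (hK.mul _ _ id id) N1 hc.1) (by positivity) (hT _ _)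
    (a := 4 * 16 ^ J) (by
      rw [Nat.card_Ico, Nat.card_Ico]
      have : 6 * 16 ^ J - 5 * 16 ^ J + (9 * 16 ^ J - 2 * 16 ^ J) ≤ 2 * (4 * 16 ^ J) := by omega
      exact_mod_cast this)
  have b2 : |tt K 0 (16 ^ J)| ≤ N := by
    rw [tt, cc, abs_le]
    constructor <;> linarith [hc.1, hc.2, hc'.1, hc'.2]
  simp only [id] at b1
  rw [← cc, abs_le] at b1
  push_cast at top hS
  have q : (0 : ℝ) < 16 ^ J := by positivity
  generalize (16 : ℝ) ^ J = n at *
  have b3 := mul_le_mul_of_nonneg_left b2 (show 0 ≤ 96 * N ^ 2 * n by positivity)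
  have b4 := mul_le_mul_of_nonneg_left hS (show 0 ≤ 26000000 * N ^ 2 by positivity)
  have b5 : N ^ 2 * n ≤ N ^ 4 * n :=
    mul_le_mul_of_nonneg_right (pow_le_pow_right₀ N1 (by norm_num)) q.le
  have b6 : N ^ 3 * n ≤ N ^ 4 * n :=
    mul_le_mul_of_nonneg_right (pow_le_pow_right₀ N1 (by norm_num)) q.le
  have b7 : 0 ≤ N ^ 4 * n := by positivity
  nlinarith [b1.2]

end Pool.Agent.MP_24fbf1_an.Bi

end

-- part MP_24fbf1_an.Bi.Repl
section

/-!
From the uniform vector on a sorted sequence to arbitrary finite families of points.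
-/

set_option autoImplicit false

open Finset

namespace Pool.Agent.MP_24fbf1_an.Bi

/-- A normalised divided difference kernel on the interval `[a, b]`. -/
structure RKer (N a b : ℝ) (F : ℝ → ℝ) (K : ℝ → ℝ → ℝ) : Prop where
  one_le : ∀ x ∈ Set.Icc a b, ∀ y ∈ Set.Icc a b, 1 ≤ K x y
  le_N : ∀ x ∈ Set.Icc a b, ∀ y ∈ Set.Icc a b, K x y ≤ N
  symm : ∀ x y, K x y = K y x
  diff : ∀ x y, K x y * (y - x) = F y - F x
  diag : ∀ x, K x x = 1
  mul : ∀ {α β : Type} (s : Finset α) (t : Finset β) (u : α → ℝ) (v : β → ℝ),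
    (∀ i, u i ∈ Set.Icc a b) → (∀ j, v j ∈ Set.Icc a b) → Mul s t (fun i j => K (u i) (v j)) N

variable {N a b : ℝ} {F : ℝ → ℝ} {K : ℝ → ℝ → ℝ}

lemma push_sum {Γ : Type} [Fintype Γ] (ι : Γ → ℕ) (T : Γ → Γ → ℝ) (G : ℕ → ℕ → ℝ)
    (s t : Finset ℕ) :
    ∑ x ∈ s, ∑ y ∈ t, G x y * ∑ c, ∑ d, (if ι c = x then if ι d = y then T c d else 0 else 0) =
      ∑ c, ∑ d, if ι c ∈ s then if ι d ∈ t then G (ι c) (ι d) * T c d else 0 else 0 := by
  simp only [mul_sum, mul_ite, mul_zero]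
  rw [sum_congr rfl fun x _ => sum_comm, sum_comm]
  refine sum_congr rfl fun c _ => ?_
  rw [sum_congr rfl fun x _ => sum_comm, sum_comm]
  refine sum_congr rfl fun d _ => ?_
  rw [sum_comm]
  simp only [sum_ite_eq]
  split_ifs with h1 h2
  · simp only [sum_ite_eq, if_pos h2]
  · simp only [sum_ite_eq, if_neg h2]
  · simp

lemma push_sq {Γ : Type} [Fintype Γ] {ι : Γ → ℕ} (hι : Function.Injective ι) (s : Finset ℕ)
    (p : ℕ → ℝ) : ∑ c, (if ι c ∈ s then p (ι c) else 0) ^ 2 ≤ ∑ x ∈ s, p x ^ 2 := by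
  simp only [ite_pow, ne_eq, OfNat.ofNat_ne_zero, not_false_eq_true, zero_pow]
  rw [← sum_filter, ← sum_image (f := fun x => p x ^ 2) fun c _ d _ h => hι h]
  refine sum_le_sum_of_subset_of_nonneg (fun x hx => ?_) fun _ _ _ => sq_nonneg _
  obtain ⟨c, hc, rfl⟩ := mem_image.1 hx
  exact (mem_filter.1 hc).2

lemma uniform (hK : RKer N a b F K) (hab : a ≤ b) {Γ : Type} [Fintype Γ] (w : Γ → ℝ)
    (hw : ∀ c, w c ∈ Set.Icc a b) (T : Γ → Γ → ℝ) (hT : Bdd univ univ T 1) :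
    ∑ c, ∑ d, 1 / K (w c) (w d) * T c d ≤
      3000000000000 * N ^ 4 * (16 * Fintype.card Γ + 1) := by
  set M := Fintype.card Γ with hM
  obtain ⟨J, hJ1, hJ2⟩ : ∃ J : ℕ, M ≤ 16 ^ J ∧ 16 ^ J ≤ 16 * M + 1 := by
    rcases Nat.eq_zero_or_pos M with h | h
    · exact ⟨0, by omega, by omega⟩
    · refine ⟨Nat.log 16 M + 1, (Nat.lt_pow_succ_log_self (by norm_num) M).le, ?_⟩
      have := Nat.pow_log_le_self 16 h.ne'
      rw [pow_succ]
      omega
  let e0 : Fin M ≃ Γ := (Fintype.equivFin Γ).symm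
  let σ : Fin M ≃ Γ := (Tuple.sort (w ∘ e0)).trans e0
  have hσ : Monotone (w ∘ σ) := Tuple.monotone_sort (w ∘ e0)
  let ξ : ℕ → ℝ := fun i => if i < 5 * 16 ^ J then a else
    if h : i - 5 * 16 ^ J < M then w (σ ⟨i - 5 * 16 ^ J, h⟩) else b
  have hξ : ∀ i, ξ i ∈ Set.Icc a b := by
    intro i
    simp only [ξ]
    split_ifs
    exacts [⟨le_rfl, hab⟩, hw _, ⟨hab, le_rfl⟩]
  have hmono : Monotone ξ := by
    intro i j hij
    by_cases h1 : i < 5 * 16 ^ J
    · have : ξ i = a := if_pos h1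
      rw [this]
      exact (hξ j).1
    by_cases h2 : j - 5 * 16 ^ J < M
    · have h3 : i - 5 * 16 ^ J < M := by omega
      simp only [ξ, if_neg h1, if_neg (show ¬ j < 5 * 16 ^ J by omega), dif_pos h2, dif_pos h3]
      exact hσ (show (⟨_, h3⟩ : Fin M) ≤ ⟨_, h2⟩ from Nat.sub_le_sub_right hij _)
    · have : ξ j = b := by
        simp only [ξ, if_neg (show ¬ j < 5 * 16 ^ J by omega), dif_neg h2]
      rw [this]
      exact (hξ i).2
  let ι : Γ → ℕ := fun c => 5 * 16 ^ J + (σ.symm c : ℕ)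
  have hι : Function.Injective ι := fun c d h =>
    σ.symm.injective (Fin.ext (Nat.add_left_cancel h))
  have hξι : ∀ c, ξ (ι c) = w c := by
    intro c
    have h2 : ι c - 5 * 16 ^ J < M := by simp [ι]
    simp only [ξ, if_neg (show ¬ ι c < 5 * 16 ^ J by simp [ι]), dif_pos h2]
    congr 1
    rw [← Equiv.eq_symm_apply]
    exact Fin.ext (by simp [ι])
  have hk : Ker N ξ (fun i => F (ξ i)) fun i j => K (ξ i) (ξ j) :=
    ⟨hmono, fun x y => hK.one_le _ (hξ x) _ (hξ y), fun x y => hK.le_N _ (hξ x) _ (hξ y),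
      fun x y => hK.symm _ _, fun x y => hK.diff _ _, fun x y h => by rw [h, hK.diag],
      fun s t u v => hK.mul s t _ _ (fun i => hξ _) fun j => hξ _⟩
  have h1 := core hk (T := fun x y =>
    ∑ c, ∑ d, (if ι c = x then if ι d = y then T c d else 0 else 0)) (fun s t p q => by
      have h2 := hT (fun c => if ι c ∈ s then p (ι c) else 0) fun d => if ι d ∈ t then q (ι d) else 0
      have h3 := push_sum ι T (fun x y => p x * q y) s t
      have h4 := push_sq hι s p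
      have h5 := push_sq hι t q
      rw [sum_congr rfl fun x _ => sum_congr rfl fun y _ => show _ = p x * q y * _ by
        rw [mul_assoc, mul_comm], h3]
      refine le_trans (le_of_eq ?_) (h2.trans (by linarith))
      congr 1
      refine sum_congr rfl fun c _ => sum_congr rfl fun d _ => ?_
      split_ifs <;> ring) J
  rw [push_sum ι T fun x y => 1 / K (ξ x) (ξ y)] at h1
  have h6 : ∀ c, ι c ∈ Ico (5 * 16 ^ J) (6 * 16 ^ J) ∧ ι c ∈ Ico (2 * 16 ^ J) (9 * 16 ^ J) := by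
    intro c
    have := (σ.symm c).2
    simp only [mem_Ico, ι]
    omega
  simp only [(h6 _).1, (h6 _).2, if_true, hξι] at h1
  refine h1.trans (mul_le_mul_of_nonneg_left ?_ (by positivity))
  exact_mod_cast hJ2

lemma bdd_of_const {α β : Type*} {s : Finset α} {t : Finset β} {T : α → β → ℝ} {B D : ℝ}
    (h : ∀ (p : α → ℝ) (q : β → ℝ), 2 * ∑ i ∈ s, ∑ j ∈ t, T i j * p i * q j ≤
      B * (∑ i ∈ s, p i ^ 2 + ∑ j ∈ t, q j ^ 2) + D) : Bdd s t T B := by
  intro p q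
  by_contra hc
  push Not at hc
  set X := ∑ i ∈ s, ∑ j ∈ t, T i j * p i * q j with hX
  set S := ∑ i ∈ s, p i ^ 2 + ∑ j ∈ t, q j ^ 2 with hS
  have key : ∀ c : ℝ, c ^ 2 * (2 * X - B * S) ≤ D := by
    intro c
    have h1 := h (fun i => c * p i) fun j => c * q j
    have e1 : ∑ i ∈ s, ∑ j ∈ t, T i j * (c * p i) * (c * q j) = c ^ 2 * X := by
      simp only [hX, mul_sum]
      exact sum_congr rfl fun i _ => sum_congr rfl fun j _ => by ring
    simp only [e1, mul_pow, ← mul_sum] at h1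
    rw [hS]
    linarith
  have hδ : 0 < 2 * X - B * S := by linarith
  generalize 2 * X - B * S = δ at key hδ
  have h2 := key (|D| / δ + 1)
  have h3 : 0 ≤ |D| / δ := by positivity
  have h4 : |D| / δ * δ = |D| := by field_simp
  nlinarith [le_abs_self D, mul_nonneg h3 (mul_nonneg (by linarith : 0 ≤ |D| / δ + 1) hδ.le)]

lemma mul_of_one {α β : Type*} {s : Finset α} {t : Finset β} {k : α → β → ℝ} {M : ℝ}
    (h : ∀ T, Bdd s t T 1 → Bdd s t (fun i j => k i j * T i j) M) : Mul s t k M := by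
  intro T B hB hT
  have key : ∀ C, 0 < C → B ≤ C → Bdd s t (fun i j => k i j * T i j) (C * M) := by
    intro C h0 h1
    have h2 := (hT.mono h1).smul (inv_pos.2 h0).le
    rw [inv_mul_cancel₀ h0.ne'] at h2
    refine ((h _ h2).smul h0.le).congr fun i _ j _ => ?_
    field_simp
  rcases hB.eq_or_lt with h0 | h0
  · intro p q
    rw [← h0, mul_zero, zero_mul]
    refine le_of_forall_pos_le_add fun ε hε => ?_
    set S := ∑ i ∈ s, p i ^ 2 + ∑ j ∈ t, q j ^ 2
    have h3 := key (ε / (|M * S| + 1)) (by positivity) (by rw [← h0]; positivity) p q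
    have h4 : ε / (|M * S| + 1) * (M * S) ≤ ε := by
      rw [div_mul_eq_mul_div, div_le_iff₀ (by positivity)]
      nlinarith [le_abs_self (M * S)]
    rw [mul_assoc] at h3
    linarith
  · rw [mul_comm]
    exact key B h0 le_rfl

theorem mul_inv (hK : RKer N a b F K) (hab : a ≤ b) {α β : Type} [Fintype α] [Fintype β]
    (u : α → ℝ) (v : β → ℝ) (hu : ∀ i, u i ∈ Set.Icc a b) (hv : ∀ j, v j ∈ Set.Icc a b) :
    Mul univ univ (fun i j => 1 / K (u i) (v j)) (96000000000000 * N ^ 4) := by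
  refine mul_of_one fun T hT => bdd_of_const
    (D := 6000000000000 * N ^ 4 * (16 * (Fintype.card α + Fintype.card β) + 1)) fun p q => ?_
  let m : α → ℕ := fun i => ⌊p i ^ 2⌋₊ + 1
  let m' : β → ℕ := fun j => ⌊q j ^ 2⌋₊ + 1
  have hm : ∀ x : ℝ, x ^ 2 ≤ ((⌊x ^ 2⌋₊ + 1 : ℕ) : ℝ) ∧ ((⌊x ^ 2⌋₊ + 1 : ℕ) : ℝ) ≤ x ^ 2 + 1 ∧
      (0 : ℝ) < ((⌊x ^ 2⌋₊ + 1 : ℕ) : ℝ) := by
    intro x
    push_cast
    exact ⟨(Nat.lt_floor_add_one _).le, by linarith [Nat.floor_le (sq_nonneg x)], by positivity⟩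
  have cs : ∀ (x : ℝ) (P : Fin (⌊x ^ 2⌋₊ + 1) → ℝ),
      (x / ((⌊x ^ 2⌋₊ + 1 : ℕ) : ℝ) * ∑ r, P r) ^ 2 ≤ ∑ r, P r ^ 2 := by
    intro x P
    obtain ⟨h1, -, h3⟩ := hm x
    have h4 := sq_sum_le_card_mul_sum_sq (s := univ) (f := P)
    rw [card_univ, Fintype.card_fin] at h4
    have h5 : 0 ≤ ∑ r, P r ^ 2 := sum_nonneg fun _ _ => sq_nonneg _
    rw [mul_pow, div_pow, div_mul_eq_mul_div, div_le_iff₀ (by positivity)]
    nlinarith [mul_le_mul h1 h4 (sq_nonneg _) h3.le]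
  let T' : ((Σ i, Fin (m i)) ⊕ (Σ j, Fin (m' j))) → ((Σ i, Fin (m i)) ⊕ (Σ j, Fin (m' j))) → ℝ :=
    fun c d => Sum.elim (fun c => Sum.elim (fun _ => 0)
      (fun d => T c.1 d.1 * (p c.1 / m c.1) * (q d.1 / m' d.1)) d) (fun _ => 0) c
  have h1 := uniform hK hab (Γ := (Σ i, Fin (m i)) ⊕ (Σ j, Fin (m' j)))
    (Sum.elim (fun c => u c.1) fun d => v d.1) (by rintro (c | d); exacts [hu _, hv _]) T' (by
      intro P Q
      have h2 := hT (fun i => p i / m i * ∑ r, P (Sum.inl ⟨i, r⟩))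
        fun j => q j / m' j * ∑ r, Q (Sum.inr ⟨j, r⟩)
      have h3 := sum_le_sum fun i (_ : i ∈ univ) => cs (p i) fun r => P (Sum.inl ⟨i, r⟩)
      have h4 := sum_le_sum fun j (_ : j ∈ univ) => cs (q j) fun r => Q (Sum.inr ⟨j, r⟩)
      have h5 : 0 ≤ ∑ j, ∑ r, P (Sum.inr ⟨j, r⟩) ^ 2 :=
        sum_nonneg fun _ _ => sum_nonneg fun _ _ => sq_nonneg _
      have h6 : 0 ≤ ∑ i, ∑ r, Q (Sum.inl ⟨i, r⟩) ^ 2 :=
        sum_nonneg fun _ _ => sum_nonneg fun _ _ => sq_nonneg _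
      simp only [Fintype.sum_sum_type, Fintype.sum_sigma, T', Sum.elim_inl, Sum.elim_inr, zero_mul,
        sum_const_zero, add_zero, zero_add]
      refine le_trans (le_of_eq ?_) (h2.trans (by linarith))
      congr 1
      refine sum_congr rfl fun i _ => ?_
      rw [sum_comm]
      refine sum_congr rfl fun j _ => ?_
      simp only [mul_sum, sum_mul]
      rw [sum_comm]
      exact sum_congr rfl fun r _ => sum_congr rfl fun r' _ => by ring)
  simp only [Fintype.sum_sum_type, Fintype.sum_sigma, T', Sum.elim_inl, Sum.elim_inr, mul_zero,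
    sum_const_zero, add_zero, zero_add, sum_const, card_univ, Fintype.card_fin, nsmul_eq_mul,
    Fintype.card_sum, Fintype.card_sigma, mul_sum] at h1
  have e : ∑ i, ∑ j, (m i : ℝ) * (m' j * (1 / K (u i) (v j) * (T i j * (p i / m i) * (q j / m' j)))) =
      ∑ i, ∑ j, 1 / K (u i) (v j) * T i j * p i * q j := by
    refine sum_congr rfl fun i _ => sum_congr rfl fun j _ => ?_
    have := (hm (p i)).2.2
    have := (hm (q j)).2.2
    simp only [m, m']
    field_simp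
  rw [e] at h1
  have c1 := sum_le_sum fun i (_ : i ∈ univ) => (hm (p i)).2.1
  have c2 := sum_le_sum fun j (_ : j ∈ univ) => (hm (q j)).2.1
  simp only [sum_add_distrib, sum_const, card_univ, nsmul_eq_mul, mul_one] at c1 c2
  have c3 : ((∑ i, m i + ∑ j, m' j : ℕ) : ℝ) ≤
      ∑ i, p i ^ 2 + ∑ j, q j ^ 2 + (Fintype.card α + Fintype.card β) := by
    rw [Nat.cast_add, Nat.cast_sum, Nat.cast_sum]
    linarith
  have c4 := mul_le_mul_of_nonneg_left c3 (show 0 ≤ N ^ 4 by positivity)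
  linarith

end Pool.Agent.MP_24fbf1_an.Bi

end
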